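import Pool.Agent.H25.EI.Orient

namespace Pool.Agent.H25.EI

open Matrix Finset

variable {v m : ℕ} {lam : ℝ} {A : Fin v → Matrix (Fin m) (Fin 3) ℝ}

lemma card_lt_pairs (m : ℕ) :
    2 * Fintype.card {p : Fin m × Fin m // p.1 < p.2} + m ≤ m * m := by
  let f : ({p : Fin m × Fin m // p.1 < p.2} ⊕ {p : Fin m × Fin m // p.1 < p.2}) ⊕ Fin m →
      Fin m × Fin m := Sum.elim (Sum.elim (fun p => p.1) (fun p => p.1.swap)) (fun x => (x, x))
  have hf : Function.Injective f := by
    rintro ((⟨⟨a, b⟩, hp⟩ | ⟨⟨a, b⟩, hp⟩) | x) ((⟨⟨c, d⟩, hq⟩ | ⟨⟨c, d⟩, hq⟩) | y) hxy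
    all_goals simp only [f, Sum.elim_inl, Sum.elim_inr, Prod.swap_prod_mk, Prod.mk.injEq] at hxy
    all_goals obtain ⟨h1, h2⟩ := hxy
    all_goals subst h1
    all_goals try subst h2
    all_goals first
        | rfl
        | exact absurd hp (not_lt.mpr hq.le)
        | exact absurd hp (lt_irrefl _)
        | exact absurd hq (lt_irrefl _)
  have := Fintype.card_le_of_injective f hf
  simp only [Fintype.card_sum, Fintype.card_prod, Fintype.card_fin] at this
  omega

lemma anti_inner (X Y Z W : Fin m → ℝ) :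
    ∑ x, ∑ y, (X x * Y y - X y * Y x) * (Z x * W y - Z y * W x)
      = 2 * ((∑ x, X x * Z x) * (∑ x, Y x * W x) - (∑ x, X x * W x) * (∑ x, Y x * Z x)) := by
  have e : ∀ x y, (X x * Y y - X y * Y x) * (Z x * W y - Z y * W x)
      = (X x * Z x) * (Y y * W y) - (X x * W x) * (Y y * Z y)
        - (Y x * Z x) * (X y * W y) + (Y x * W x) * (X y * Z y) := by
    intro x y; ring
  simp_rw [e, Finset.sum_add_distrib, Finset.sum_sub_distrib, ← Finset.mul_sum, ← Finset.sum_mul]
  ring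

theorem anti_bound_pos (h : Data lam A) (c : ℝ) (hc : 0 < c) (hc1 : c < 1) (hc2 : c ^ 2 = lam)
    (hpos : ∀ i j, 0 < ((A i)ᵀ * A j).det) : 6 * v + m ≤ m * m := by
  let w : Fin v × Fin 3 → ({p : Fin m × Fin m // p.1 < p.2} → ℝ) := fun s p =>
    A s.1 p.1.1 (s.2 + 1) * A s.1 p.1.2 (s.2 + 2) - A s.1 p.1.2 (s.2 + 1) * A s.1 p.1.1 (s.2 + 2)
  have hli : LinearIndependent ℝ w := by
    rw [Fintype.linearIndependent_iff]
    intro g hg
    let Phi : Fin m → Fin m → ℝ := fun x y => ∑ s : Fin v × Fin 3, g s *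
      (A s.1 x (s.2 + 1) * A s.1 y (s.2 + 2) - A s.1 y (s.2 + 1) * A s.1 x (s.2 + 2))
    have hanti : ∀ x y, Phi x y = - Phi y x := by
      intro x y
      simp only [Phi, ← Finset.sum_neg_distrib]
      refine Finset.sum_congr rfl fun s _ => by ring
    have hlt : ∀ x y, x < y → Phi x y = 0 := by
      intro x y hxy
      have := congrFun hg ⟨(x, y), hxy⟩
      simpa [Finset.sum_apply, w, Phi] using this
    have hzero : ∀ x y, Phi x y = 0 := by
      intro x y
      rcases lt_trichotomy x y with hxy | hxy | hxy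
      · exact hlt x y hxy
      · subst hxy
        have := hanti x x
        linarith
      · rw [hanti, hlt y x hxy, neg_zero]
    have hsq : ∑ x, ∑ y, Phi x y * Phi x y = 0 := by
      simp [hzero]
    have hexp : ∑ x, ∑ y, Phi x y * Phi x y = ∑ s : Fin v × Fin 3, ∑ t : Fin v × Fin 3,
        g s * g t * (2 * (((A s.1)ᵀ * A t.1) (s.2 + 1) (t.2 + 1) *
          ((A s.1)ᵀ * A t.1) (s.2 + 2) (t.2 + 2) - ((A s.1)ᵀ * A t.1) (s.2 + 1) (t.2 + 2) *
          ((A s.1)ᵀ * A t.1) (s.2 + 2) (t.2 + 1))) := by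
      have e1 : ∀ x y, Phi x y * Phi x y = ∑ s : Fin v × Fin 3, ∑ t : Fin v × Fin 3,
          g s * g t * ((A s.1 x (s.2 + 1) * A s.1 y (s.2 + 2) - A s.1 y (s.2 + 1) *
            A s.1 x (s.2 + 2)) * (A t.1 x (t.2 + 1) * A t.1 y (t.2 + 2) - A t.1 y (t.2 + 1) *
            A t.1 x (t.2 + 2))) := by
        intro x y
        simp only [Phi]
        rw [Finset.sum_mul_sum]
        refine Finset.sum_congr rfl fun s _ => Finset.sum_congr rfl fun t _ => by ring
      simp_rw [e1]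
      have e2 : ∀ x, ∑ y, ∑ s : Fin v × Fin 3, ∑ t : Fin v × Fin 3,
          g s * g t * ((A s.1 x (s.2 + 1) * A s.1 y (s.2 + 2) - A s.1 y (s.2 + 1) *
            A s.1 x (s.2 + 2)) * (A t.1 x (t.2 + 1) * A t.1 y (t.2 + 2) - A t.1 y (t.2 + 1) *
            A t.1 x (t.2 + 2)))
          = ∑ s : Fin v × Fin 3, ∑ t : Fin v × Fin 3, ∑ y,
          g s * g t * ((A s.1 x (s.2 + 1) * A s.1 y (s.2 + 2) - A s.1 y (s.2 + 1) *
            A s.1 x (s.2 + 2)) * (A t.1 x (t.2 + 1) * A t.1 y (t.2 + 2) - A t.1 y (t.2 + 1) *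
            A t.1 x (t.2 + 2))) := by
        intro x
        rw [Finset.sum_comm]
        refine Finset.sum_congr rfl fun s _ => Finset.sum_comm
      simp_rw [e2]
      rw [Finset.sum_comm]
      refine Finset.sum_congr rfl fun s _ => ?_
      rw [Finset.sum_comm]
      refine Finset.sum_congr rfl fun t _ => ?_
      simp_rw [← Finset.mul_sum]
      rw [anti_inner (fun x => A s.1 x (s.2 + 1)) (fun x => A s.1 x (s.2 + 2))
        (fun x => A t.1 x (t.2 + 1)) (fun x => A t.1 x (t.2 + 2))]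
      simp only [Matrix.mul_apply, Matrix.transpose_apply]
    have hminor : ∀ s t : Fin v × Fin 3, ((A s.1)ᵀ * A t.1) (s.2 + 1) (t.2 + 1) *
          ((A s.1)ᵀ * A t.1) (s.2 + 2) (t.2 + 2) - ((A s.1)ᵀ * A t.1) (s.2 + 1) (t.2 + 2) *
          ((A s.1)ᵀ * A t.1) (s.2 + 2) (t.2 + 1) = c * ((A s.1)ᵀ * A t.1) s.2 t.2
            + (if s = t then (1 - c) else 0) := by
      rintro ⟨i, a⟩ ⟨j, b⟩
      simp only
      by_cases hij : i = j
      · subst hij
        rw [minor ((A i)ᵀ * A i) 1 one_pos (by rw [h.diag]; simp) (hpos i i), h.diag]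
        by_cases hab : a = b
        · subst hab; simp
        · have : ¬ ((i, a) = (i, b)) := by simp [hab]
          rw [if_neg this, Matrix.one_apply_ne hab]; ring
      · have : ¬ ((i, a) = (j, b)) := by simp [hij]
        rw [if_neg this, add_zero]
        apply minor _ c hc _ (hpos i j)
        rw [Matrix.transpose_mul, Matrix.transpose_transpose, h.off i j hij, hc2]
    simp_rw [hminor] at hexp
    rw [hsq] at hexp
    have hq : ∑ s : Fin v × Fin 3, ∑ t : Fin v × Fin 3, g s * g t * (((A s.1)ᵀ * A t.1) s.2 t.2)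
        = ∑ x, (∑ s : Fin v × Fin 3, g s * A s.1 x s.2) ^ 2 := by
      have e1 : ∀ x, (∑ s : Fin v × Fin 3, g s * A s.1 x s.2) ^ 2
          = ∑ s : Fin v × Fin 3, ∑ t : Fin v × Fin 3, g s * g t * (A s.1 x s.2 * A t.1 x t.2) := by
        intro x
        rw [sq, Finset.sum_mul_sum]
        refine Finset.sum_congr rfl fun s _ => Finset.sum_congr rfl fun t _ => by ring
      simp_rw [e1]
      symm
      rw [Finset.sum_comm]
      refine Finset.sum_congr rfl fun s _ => ?_
      rw [Finset.sum_comm]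
      refine Finset.sum_congr rfl fun t _ => ?_
      rw [← Finset.mul_sum]
      simp only [Matrix.mul_apply, Matrix.transpose_apply]
    have hsplit : ∑ s : Fin v × Fin 3, ∑ t : Fin v × Fin 3, g s * g t *
        (2 * (c * ((A s.1)ᵀ * A t.1) s.2 t.2 + (if s = t then (1 - c) else 0)))
        = 2 * c * (∑ s : Fin v × Fin 3, ∑ t : Fin v × Fin 3,
            g s * g t * (((A s.1)ᵀ * A t.1) s.2 t.2))
          + 2 * (1 - c) * ∑ s : Fin v × Fin 3, g s ^ 2 := by
      have e1 : ∀ s t : Fin v × Fin 3, g s * g t *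
        (2 * (c * ((A s.1)ᵀ * A t.1) s.2 t.2 + (if s = t then (1 - c) else 0)))
        = 2 * c * (g s * g t * (((A s.1)ᵀ * A t.1) s.2 t.2))
          + (if s = t then 2 * (1 - c) * (g s * g t) else 0) := by
        intro s t; split_ifs <;> ring
      simp_rw [e1, Finset.sum_add_distrib, ← Finset.mul_sum]
      have e3 : ∀ s : Fin v × Fin 3, ∑ t : Fin v × Fin 3,
          (if s = t then 2 * (1 - c) * (g s * g t) else 0) = 2 * (1 - c) * g s ^ 2 := by
        intro s
        simp only [Finset.sum_ite_eq, Finset.mem_univ, if_true]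
        ring
      simp_rw [e3, ← Finset.mul_sum]
    rw [hsplit, hq] at hexp
    have hnn : 0 ≤ ∑ x, (∑ s : Fin v × Fin 3, g s * A s.1 x s.2) ^ 2 :=
      Finset.sum_nonneg fun x _ => sq_nonneg _
    have hnn2 : 0 ≤ ∑ s : Fin v × Fin 3, g s ^ 2 := Finset.sum_nonneg fun x _ => sq_nonneg _
    have hz : ∑ s : Fin v × Fin 3, g s ^ 2 = 0 := by
      have h1 : 0 ≤ 2 * c * ∑ x, (∑ s : Fin v × Fin 3, g s * A s.1 x s.2) ^ 2 := by positivity
      have h2 : 0 < 2 * (1 - c) := by linarith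
      have h3 : 2 * (1 - c) * ∑ s : Fin v × Fin 3, g s ^ 2 ≤ 0 := by linarith
      have h4 : 0 ≤ 2 * (1 - c) * ∑ s : Fin v × Fin 3, g s ^ 2 := mul_nonneg h2.le hnn2
      have h5 : 2 * (1 - c) * ∑ s : Fin v × Fin 3, g s ^ 2 = 0 := le_antisymm h3 h4
      rcases mul_eq_zero.mp h5 with h6 | h6
      · linarith
      · exact h6
    intro s
    have := (Finset.sum_eq_zero_iff_of_nonneg (fun s _ => sq_nonneg (g s))).mp hz s
      (Finset.mem_univ s)
    exact pow_eq_zero_iff (two_ne_zero) |>.mp this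
  have hcard := hli.fintype_card_le_finrank
  rw [Module.finrank_fintype_fun_eq_card, Fintype.card_prod, Fintype.card_fin,
    Fintype.card_fin] at hcard
  have := card_lt_pairs m
  omega

theorem anti_bound (h : Data lam A) (c : ℝ) (hc : 1 / 2 < c) (hc1 : c < 1) (hc2 : c ^ 2 = lam)
    (hv : 1 ≤ v) : 6 * v + m ≤ m * m := by
  obtain ⟨A', hA', hpos⟩ := orient h c hc hc2 ⟨0, hv⟩
  exact anti_bound_pos hA' c (by linarith) hc1 hc2 hpos

end Pool.Agent.H25.EI
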