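import Mathlib

namespace Pool.Agent.H25.EI

open Matrix Finset

structure Data {v m : ℕ} (lam : ℝ) (A : Fin v → Matrix (Fin m) (Fin 3) ℝ) : Prop where
  diag : ∀ i, (A i)ᵀ * A i = 1
  off : ∀ i j, i ≠ j → ((A i)ᵀ * A j) * ((A j)ᵀ * A i) = lam • (1 : Matrix (Fin 3) (Fin 3) ℝ)

variable {v m : ℕ} {lam : ℝ} {A : Fin v → Matrix (Fin m) (Fin 3) ℝ}

def P (A : Fin v → Matrix (Fin m) (Fin 3) ℝ) (i : Fin v) : Matrix (Fin m) (Fin m) ℝ :=
  A i * (A i)ᵀ

def F (A : Fin v → Matrix (Fin m) (Fin 3) ℝ) : Matrix (Fin m) (Fin m) ℝ := ∑ i, P A i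

def mu (lam : ℝ) (i j : Fin v) : ℝ := if i = j then 1 else lam

lemma sum_mu (lam : ℝ) (i : Fin v) : ∑ k, mu lam i k = 1 + ((v : ℝ) - 1) * lam := by
  have : ∀ k, mu lam i k = lam + (if i = k then 1 - lam else 0) := by
    intro k; unfold mu; split_ifs <;> ring
  simp_rw [this, Finset.sum_add_distrib]
  simp
  ring

lemma P_transpose (i : Fin v) : (P A i)ᵀ = P A i := by
  simp [P, Matrix.transpose_mul]

lemma F_transpose : (F A)ᵀ = F A := by
  simp [F, Matrix.transpose_sum, P_transpose]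

lemma gram_sq (h : Data lam A) (i j : Fin v) :
    ((A i)ᵀ * A j) * ((A j)ᵀ * A i) = (mu lam i j) • (1 : Matrix (Fin 3) (Fin 3) ℝ) := by
  unfold mu
  split_ifs with hij
  · subst hij; simp [h.diag]
  · exact h.off i j hij

lemma APA (h : Data lam A) (i j : Fin v) :
    (A i)ᵀ * P A j * A i = (mu lam i j) • (1 : Matrix (Fin 3) (Fin 3) ℝ) := by
  rw [← gram_sq h i j]; simp only [P, Matrix.mul_assoc]

lemma AFA (h : Data lam A) (i : Fin v) :
    (A i)ᵀ * F A * A i = (1 + ((v : ℝ) - 1) * lam) • (1 : Matrix (Fin 3) (Fin 3) ℝ) := by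
  rw [F, Matrix.mul_sum, Matrix.sum_mul]
  simp_rw [APA h]
  rw [← Finset.sum_smul, sum_mu]

lemma trP (i : Fin v) (Q : Matrix (Fin m) (Fin m) ℝ) :
    trace (Q * P A i) = trace ((A i)ᵀ * Q * A i) := by
  rw [P, ← Matrix.mul_assoc, Matrix.trace_mul_comm, Matrix.mul_assoc]

lemma trPP (h : Data lam A) (i j : Fin v) :
    trace (P A j * P A i) = 3 * mu lam i j := by
  rw [trP, APA h, Matrix.trace_smul, Matrix.trace_one]; simp; ring

lemma trFP (h : Data lam A) (i : Fin v) :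
    trace (F A * P A i) = 3 * (1 + ((v : ℝ) - 1) * lam) := by
  rw [trP, AFA h, Matrix.trace_smul, Matrix.trace_one]; simp; ring

lemma trP1 (h : Data lam A) (i : Fin v) : trace (P A i) = 3 := by
  have := trP (A := A) i 1
  rw [Matrix.one_mul, Matrix.mul_one, h.diag, Matrix.trace_one] at this
  simpa using this

lemma trF (h : Data lam A) : trace (F A) = 3 * v := by
  rw [F, Matrix.trace_sum]; simp [trP1 h]; ring

lemma trFF (h : Data lam A) : trace (F A * F A) = 3 * v * (1 + ((v : ℝ) - 1) * lam) := by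
  have : F A * F A = ∑ i, F A * P A i := by
    calc F A * F A = F A * ∑ i, P A i := rfl
      _ = _ := Finset.mul_sum _ _ _
  rw [this, Matrix.trace_sum]; simp [trFP h]; ring

/-- squares of entries -/
lemma sum_sq_eq_trace {α β : Type*} [Fintype α] [Fintype β] (M : Matrix α β ℝ) :
    ∑ a, ∑ b, M a b ^ 2 = trace (M * Mᵀ) := by
  simp [Matrix.trace, Matrix.mul_apply, sq]

lemma sum_sq_APA (Q : Matrix (Fin m) (Fin m) ℝ) :
    ∑ k, ∑ l, ∑ a, ∑ b, ((A k)ᵀ * Q * A l) a b ^ 2 = trace (Q * F A * Qᵀ * F A) := by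
  simp_rw [sum_sq_eq_trace]
  have h1 : ∀ k l : Fin v, trace ((A k)ᵀ * Q * A l * ((A k)ᵀ * Q * A l)ᵀ)
      = trace (Q * P A l * Qᵀ * P A k) := by
    intro k l
    rw [Matrix.transpose_mul, Matrix.transpose_mul, Matrix.transpose_transpose]
    have : (A k)ᵀ * Q * A l * ((A l)ᵀ * (Qᵀ * A k)) = (A k)ᵀ * (Q * P A l * Qᵀ * A k) := by
      simp only [P, Matrix.mul_assoc]
    rw [this, Matrix.trace_mul_comm]
    simp only [P, Matrix.mul_assoc]
  simp_rw [h1]
  rw [F]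
  simp only [Finset.mul_sum, Finset.sum_mul, Matrix.trace_sum]

lemma sum_sq_P (h : Data lam A) (i : Fin v) :
    trace (P A i * F A * P A i * F A) = 3 * (1 + ((v : ℝ) - 1) * lam) ^ 2 := by
  have : trace (P A i * F A * P A i * F A) = trace (((A i)ᵀ * F A * A i) * ((A i)ᵀ * F A * A i)) := by
    have e : P A i * F A * P A i * F A = A i * ((A i)ᵀ * F A * A i * ((A i)ᵀ * F A)) := by
      simp only [P, Matrix.mul_assoc]
    rw [e, Matrix.trace_mul_comm]
    simp only [Matrix.mul_assoc]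
  rw [this, AFA h]
  rw [Matrix.smul_mul, Matrix.mul_smul, Matrix.one_mul, smul_smul, Matrix.trace_smul,
    Matrix.trace_one]
  simp; ring


/-- Bessel inequality for the projections -/
lemma bessel (h : Data lam A) (hl0 : 0 < lam) (hl1 : lam < 1) (hv : 1 ≤ v)
    (M : Matrix (Fin m) (Fin m) ℝ) (hM : Mᵀ = M) :
    ∑ i, trace (M * P A i) ^ 2 - lam / (1 + ((v : ℝ) - 1) * lam) * trace (M * F A) ^ 2
      ≤ 3 * (1 - lam) * trace (M * M) := by
  set L := 1 + ((v : ℝ) - 1) * lam with hL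
  have hv' : (1 : ℝ) ≤ v := by exact_mod_cast hv
  have hLpos : 0 < L := by
    have : 0 ≤ ((v : ℝ) - 1) * lam := mul_nonneg (by linarith) hl0.le
    linarith
  set b : Fin v → ℝ := fun i => trace (M * P A i) with hb
  set S := ∑ i, b i with hS
  have hMF : trace (M * F A) = S := by
    rw [F, Finset.mul_sum, Matrix.trace_sum]
  set t : Fin v → ℝ := fun i => b i - lam / L * S with ht
  set d : ℝ := 3 * (1 - lam) with hd
  have hdpos : 0 < d := by rw [hd]; linarith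
  set Q : Matrix (Fin m) (Fin m) ℝ := ∑ i, t i • P A i with hQ
  have hQt : Qᵀ = Q := by
    rw [hQ, Matrix.transpose_sum]
    simp [Matrix.transpose_smul, P_transpose]
  have key : 0 ≤ trace ((d • M - Q) * (d • M - Q)ᵀ) := by
    rw [← sum_sq_eq_trace]; positivity
  have e1 : (d • M - Q)ᵀ = d • M - Q := by
    rw [Matrix.transpose_sub, Matrix.transpose_smul, hM, hQt]
  have e2 : trace (M * Q) = ∑ i, t i * b i := by
    rw [hQ, Finset.mul_sum, Matrix.trace_sum]
    refine Finset.sum_congr rfl fun i _ => ?_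
    rw [Matrix.mul_smul, Matrix.trace_smul, smul_eq_mul]
  have e3 : trace (Q * Q) = ∑ i, ∑ j, t i * t j * (3 * mu lam j i) := by
    rw [hQ, Finset.sum_mul, Matrix.trace_sum]
    rw [Finset.sum_comm' (s := Finset.univ) (t := fun _ => Finset.univ) (t' := Finset.univ)
      (s' := fun _ => Finset.univ) (by simp)]
    rw [Finset.sum_comm]
    refine Finset.sum_congr rfl fun i _ => ?_
    rw [Finset.mul_sum, Matrix.trace_sum]
    refine Finset.sum_congr rfl fun j _ => ?_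
    rw [Matrix.mul_smul, Matrix.smul_mul, Matrix.trace_smul, Matrix.trace_smul, trPP h,
      smul_eq_mul, smul_eq_mul]
    ring
  have e4 : trace ((d • M - Q) * (d • M - Q)) = d ^ 2 * trace (M * M) - 2 * d * trace (M * Q)
      + trace (Q * Q) := by
    rw [Matrix.sub_mul, Matrix.mul_sub, Matrix.mul_sub, Matrix.trace_sub, Matrix.trace_sub,
      Matrix.trace_sub, Matrix.smul_mul, Matrix.mul_smul, Matrix.smul_mul, Matrix.mul_smul,
      Matrix.trace_smul, Matrix.trace_smul, Matrix.trace_smul, Matrix.trace_smul,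
      Matrix.trace_mul_comm Q M]
    simp only [smul_eq_mul]; ring
  have e5 : ∑ i, ∑ j, t i * t j * (3 * mu lam j i) = 3 * lam * (∑ i, t i) ^ 2
      + d * ∑ i, t i ^ 2 := by
    have : ∀ i, ∑ j, t i * t j * (3 * mu lam j i) = 3 * lam * (t i * ∑ j, t j) + d * t i ^ 2 := by
      intro i
      have h1 : ∀ j, t i * t j * (3 * mu lam j i) = 3 * lam * t i * t j
          + (if j = i then d * t i * t j else 0) := by
        intro j; unfold mu; split_ifs with hji
        · rw [hd]; ring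
        · ring
      simp_rw [h1, Finset.sum_add_distrib, ← Finset.mul_sum]
      simp
      ring
    simp_rw [this, Finset.sum_add_distrib, ← Finset.mul_sum, ← Finset.sum_mul]
    ring
  have hB1 : ∑ i, t i * b i = ∑ i, b i ^ 2 - lam / L * S ^ 2 := by
    have : ∀ i, t i * b i = b i ^ 2 - lam / L * S * b i := by
      intro i; rw [ht]; ring
    simp_rw [this, Finset.sum_sub_distrib, ← Finset.mul_sum, ← hS]
    ring
  have hB2 : ∑ i, t i ^ 2 = ∑ i, b i ^ 2 - 2 * (lam / L) * S ^ 2 + v * (lam / L * S) ^ 2 := by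
    have : ∀ i, t i ^ 2 = b i ^ 2 - 2 * (lam / L * S) * b i + (lam / L * S) ^ 2 := by
      intro i; rw [ht]; ring
    simp_rw [this, Finset.sum_add_distrib, Finset.sum_sub_distrib, ← Finset.mul_sum, ← hS]
    simp
    ring
  have hB3 : ∑ i, t i = S - v * (lam / L * S) := by
    rw [ht, Finset.sum_sub_distrib, ← hS]; simp
  have hLv : (v : ℝ) * lam = L - (1 - lam) := by rw [hL]; ring
  rw [e1, e4, e2, e3, e5, hB1, hB2, hB3] at key
  rw [hMF]
  have hfin : d ^ 2 * trace (M * M) - 2 * d * (∑ i, b i ^ 2 - lam / L * S ^ 2)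
      + (3 * lam * (S - v * (lam / L * S)) ^ 2
      + d * (∑ i, b i ^ 2 - 2 * (lam / L) * S ^ 2 + v * (lam / L * S) ^ 2))
      = d * (d * trace (M * M) - (∑ i, b i ^ 2 - lam / L * S ^ 2)) := by
    have hw : lam / L * L = lam := div_mul_cancel₀ _ hLpos.ne'
    have h1 : lam * (1 - v * (lam / L)) = lam / L * (1 - lam) := by
      linear_combination (-(lam / L)) * hLv + (-1) * hw
    rw [hd]
    linear_combination 3 * S ^ 2 * (1 - v * (lam / L)) * h1
  rw [hfin] at key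
  have := nonneg_of_mul_nonneg_right key hdpos
  linarith


lemma sum5 (f : Fin v → Fin v → Fin 3 → Fin 3 → Fin v → ℝ) :
    ∑ k, ∑ l, ∑ a, ∑ b, ∑ i, f k l a b i = ∑ i, ∑ k, ∑ l, ∑ a, ∑ b, f k l a b i :=
  calc ∑ k, ∑ l, ∑ a, ∑ b, ∑ i, f k l a b i
      = ∑ k, ∑ l, ∑ a, ∑ i, ∑ b, f k l a b i := Finset.sum_congr rfl fun _ _ =>
        Finset.sum_congr rfl fun _ _ => Finset.sum_congr rfl fun _ _ => Finset.sum_comm
    _ = ∑ k, ∑ l, ∑ i, ∑ a, ∑ b, f k l a b i := Finset.sum_congr rfl fun _ _ =>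
        Finset.sum_congr rfl fun _ _ => Finset.sum_comm
    _ = ∑ k, ∑ i, ∑ l, ∑ a, ∑ b, f k l a b i := Finset.sum_congr rfl fun _ _ =>
        Finset.sum_comm
    _ = _ := Finset.sum_comm

lemma tr_vv (k l : Fin v) (a b : Fin 3) (Q : Matrix (Fin m) (Fin m) ℝ) :
    trace (vecMulVec (fun x => A k x a) (fun x => A l x b) * Q) = ((A l)ᵀ * Q * A k) b a := by
  rw [vecMulVec_mul, trace_vecMulVec]
  simp only [Matrix.mul_apply, dotProduct, vecMul, Matrix.transpose_apply]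
  refine Finset.sum_congr rfl fun x _ => ?_
  ring

lemma tr_vv_vv (X Y Z W : Fin m → ℝ) :
    trace (vecMulVec X Y * vecMulVec Z W) = (Y ⬝ᵥ Z) * (X ⬝ᵥ W) := by
  rw [vecMulVec_mul_vecMulVec, trace_vecMulVec]
  simp

def MM (A : Fin v → Matrix (Fin m) (Fin 3) ℝ) (k l : Fin v) (a b : Fin 3) :
    Matrix (Fin m) (Fin m) ℝ :=
  vecMulVec (fun x => A k x a) (fun x => A l x b) + vecMulVec (fun x => A l x b) (fun x => A k x a)

lemma MM_transpose (k l : Fin v) (a b : Fin 3) : (MM A k l a b)ᵀ = MM A k l a b := by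
  ext x y; simp [MM, vecMulVec_apply]; ring

lemma tr_MM_Q (k l : Fin v) (a b : Fin 3) (Q : Matrix (Fin m) (Fin m) ℝ) (hQ : Qᵀ = Q) :
    trace (MM A k l a b * Q) = 2 * ((A k)ᵀ * Q * A l) a b := by
  rw [MM, Matrix.add_mul, Matrix.trace_add, tr_vv, tr_vv]
  have : ((A l)ᵀ * Q * A k) = ((A k)ᵀ * Q * A l)ᵀ := by
    rw [Matrix.transpose_mul, Matrix.transpose_mul, hQ, Matrix.transpose_transpose,
      Matrix.mul_assoc]
  rw [this, Matrix.transpose_apply]; ring

lemma dot_col (k l : Fin v) (a b : Fin 3) :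
    (fun x => A k x a) ⬝ᵥ (fun x => A l x b) = ((A k)ᵀ * (1 : Matrix (Fin m) (Fin m) ℝ) * A l) a b := by
  simp [Matrix.mul_apply, dotProduct]

lemma tr_MM_MM (h : Data lam A) (k l : Fin v) (a b : Fin 3) :
    trace (MM A k l a b * MM A k l a b) = 2 * (1 + ((A k)ᵀ * (1 : Matrix (Fin m) (Fin m) ℝ) * A l) a b ^ 2) := by
  have h1 : ((A k)ᵀ * (1 : Matrix (Fin m) (Fin m) ℝ) * A k) a a = 1 := by rw [Matrix.mul_one, h.diag]; simp
  have h2 : ((A l)ᵀ * (1 : Matrix (Fin m) (Fin m) ℝ) * A l) b b = 1 := by rw [Matrix.mul_one, h.diag]; simp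
  have h3 : ((A l)ᵀ * (1 : Matrix (Fin m) (Fin m) ℝ) * A k) b a = ((A k)ᵀ * (1 : Matrix (Fin m) (Fin m) ℝ) * A l) a b := by
    rw [← dot_col, ← dot_col, dotProduct_comm]
  rw [MM, Matrix.add_mul, Matrix.mul_add, Matrix.mul_add, Matrix.trace_add, Matrix.trace_add,
    Matrix.trace_add, tr_vv_vv, tr_vv_vv, tr_vv_vv, tr_vv_vv]
  simp only [dot_col, h1, h2, h3]
  ring

lemma trF4_lower (h : Data lam A) (hl0 : 0 < lam) (hl1 : lam < 1) (hv : 1 ≤ v) :
    6 * v * (1 + ((v : ℝ) - 1) * lam) ^ 2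
      - 2 * (lam / (1 + ((v : ℝ) - 1) * lam)) * trace (F A * F A * F A * F A)
      ≤ 9 * (1 - lam) * v * (3 * v + (1 + ((v : ℝ) - 1) * lam)) := by
  have hsum : ∑ k : Fin v, ∑ l : Fin v, ∑ a : Fin 3, ∑ b : Fin 3,
      (∑ i, trace (MM A k l a b * P A i) ^ 2
        - lam / (1 + ((v : ℝ) - 1) * lam) * trace (MM A k l a b * F A) ^ 2)
      ≤ ∑ k : Fin v, ∑ l : Fin v, ∑ a : Fin 3, ∑ b : Fin 3,
        3 * (1 - lam) * trace (MM A k l a b * MM A k l a b) := by
    refine Finset.sum_le_sum fun k _ => Finset.sum_le_sum fun l _ => Finset.sum_le_sum fun a _ =>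
      Finset.sum_le_sum fun b _ => bessel h hl0 hl1 hv _ (MM_transpose k l a b)
  have e1 : ∑ k : Fin v, ∑ l : Fin v, ∑ a : Fin 3, ∑ b : Fin 3,
      ∑ i, trace (MM A k l a b * P A i) ^ 2 = 4 * (3 * v * (1 + ((v : ℝ) - 1) * lam) ^ 2) := by
    have : ∀ k l : Fin v, ∀ a b : Fin 3, ∑ i, trace (MM A k l a b * P A i) ^ 2
        = ∑ i, 4 * ((A k)ᵀ * P A i * A l) a b ^ 2 := by
      intro k l a b
      refine Finset.sum_congr rfl fun i _ => ?_
      rw [tr_MM_Q _ _ _ _ _ (P_transpose i)]; ring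
    simp_rw [this]
    rw [sum5 (fun k l a b i => 4 * ((A k)ᵀ * P A i * A l) a b ^ 2)]
    simp_rw [← Finset.mul_sum, sum_sq_APA, P_transpose, sum_sq_P h]
    simp; ring
  have e2 : ∑ k : Fin v, ∑ l : Fin v, ∑ a : Fin 3, ∑ b : Fin 3,
      trace (MM A k l a b * F A) ^ 2 = 4 * trace (F A * F A * F A * F A) := by
    simp_rw [tr_MM_Q _ _ _ _ _ (F_transpose (A := A)), mul_pow, ← Finset.mul_sum, sum_sq_APA,
      F_transpose]
    norm_num
  have e3 : ∑ k : Fin v, ∑ l : Fin v, ∑ a : Fin 3, ∑ b : Fin 3,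
        trace (MM A k l a b * MM A k l a b)
        = 2 * (9 * v ^ 2 + 3 * v * (1 + ((v : ℝ) - 1) * lam)) := by
    simp_rw [tr_MM_MM h, ← Finset.mul_sum, Finset.sum_add_distrib, sum_sq_APA,
      Matrix.transpose_one, Matrix.one_mul, Matrix.mul_one, trFF h]
    simp; ring
  simp_rw [Finset.sum_sub_distrib, ← Finset.mul_sum] at hsum
  rw [e1, e2, e3] at hsum
  nlinarith [hsum]

end Pool.Agent.H25.EI
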