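import Mathlib

namespace Pool.Agent.H25.EI

open Matrix Finset

lemma trace_sq_eq {m : ℕ} (S : Matrix (Fin m) (Fin m) ℝ) (hS : S.IsHermitian) :
    trace (S * S) = ∑ k, hS.eigenvalues k ^ 2 := by
  have h1 := hS.spectral_theorem
  have h2 : S * S = Unitary.conjStarAlgAut ℝ _ hS.eigenvectorUnitary
      (diagonal (RCLike.ofReal ∘ hS.eigenvalues) * diagonal (RCLike.ofReal ∘ hS.eigenvalues)) := by
    rw [map_mul, ← h1]
  rw [h2, Unitary.conjStarAlgAut_apply, Matrix.trace_mul_comm, ← Matrix.mul_assoc]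
  simp [Matrix.diagonal_mul_diagonal, Matrix.trace, sq]

lemma exists_eig {m : ℕ} (S : Matrix (Fin m) (Fin m) ℝ) (hS : Sᵀ = S) (L : ℝ)
    (hpsd : ∀ y : Fin m → ℝ, 0 ≤ y ⬝ᵥ (S *ᵥ y)) (htr : 0 < trace S)
    (h2 : L * trace S ≤ trace (S * S)) :
    ∃ (y : Fin m → ℝ) (g : ℝ), y ⬝ᵥ y = 1 ∧ S *ᵥ y = g • y ∧ L ≤ g := by
  have hH : S.IsHermitian := by
    rw [Matrix.IsHermitian, Matrix.conjTranspose_eq_transpose_of_trivial, hS]
  have hunit : ∀ k, (⇑(hH.eigenvectorBasis k) : Fin m → ℝ) ⬝ᵥ ⇑(hH.eigenvectorBasis k) = 1 := by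
    intro k
    have h1 := hH.eigenvectorBasis.inner_eq_one k
    rw [EuclideanSpace.inner_eq_star_dotProduct] at h1
    simpa using h1
  have hev : ∀ k, S *ᵥ ⇑(hH.eigenvectorBasis k) = hH.eigenvalues k • ⇑(hH.eigenvectorBasis k) :=
    fun k => hH.mulVec_eigenvectorBasis k
  have hnn : ∀ k, 0 ≤ hH.eigenvalues k := by
    intro k
    have h1 := hpsd ⇑(hH.eigenvectorBasis k)
    rw [hev, dotProduct_smul, hunit, smul_eq_mul, mul_one] at h1
    exact h1
  by_contra hcon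
  push Not at hcon
  have hlt : ∀ k, hH.eigenvalues k < L := fun k => hcon _ _ (hunit k) (hev k)
  have ht1 : trace S = ∑ k, hH.eigenvalues k := by
    have := hH.trace_eq_sum_eigenvalues
    simpa using this
  have ht2 := trace_sq_eq S hH
  have hex : ∃ k, 0 < hH.eigenvalues k := by
    by_contra hno
    push Not at hno
    have : ∑ k, hH.eigenvalues k ≤ 0 := Finset.sum_nonpos fun k _ => hno k
    linarith
  obtain ⟨k0, hk0⟩ := hex
  have hs : ∑ k, hH.eigenvalues k ^ 2 < ∑ k, L * hH.eigenvalues k := by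
    refine Finset.sum_lt_sum (fun k _ => ?_) ⟨k0, Finset.mem_univ _, ?_⟩
    · nlinarith [hnn k, hlt k]
    · nlinarith [hlt k0]
  rw [← Finset.mul_sum, ← ht1, ← ht2] at hs
  linarith

/-- final algebra -/
lemma final_alg (m v lam : ℝ) (hl0 : 0 < lam) (hl4 : lam ≤ 1 / 4) (hz : 3 ≤ lam * (m + 2))
    (hv : m * (m - 1) < 6 * v)
    (hH : 2 * (1 + (v - 1) * lam) * ((1 - lam + lam * (1 + (v - 1) * lam)) + 5)
      ≤ 3 * (m + 1) * (1 - lam + lam * (1 + (v - 1) * lam))) : False := by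
  obtain ⟨z, hzd⟩ : ∃ z, z = lam * (m + 2) := ⟨_, rfl⟩
  obtain ⟨w, hw⟩ : ∃ w, w = z - 3 := ⟨_, rfl⟩
  obtain ⟨p, hp⟩ : ∃ p, p = lam * (1 + (v - 1) * lam) := ⟨_, rfl⟩
  obtain ⟨p0, hp0⟩ : ∃ p0, p0 = lam + (z ^ 2 - 5 * lam * z) / 6 := ⟨_, rfl⟩
  have hw0 : 0 ≤ w := by rw [hw, hzd]; linarith
  have hz0 : 3 ≤ z := by rw [hzd]; exact hz
  have hpp : p0 < p := by
    have h1 : p - p0 = lam ^ 2 * (6 * v - m * (m - 1)) / 6 := by
      rw [hp, hp0, hzd]; ring
    have h2 : 0 < lam ^ 2 * (6 * v - m * (m - 1)) / 6 := by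
      have : 0 < 6 * v - m * (m - 1) := by linarith
      positivity
    linarith
  have hb : 0 < 12 + lam + 4 * p0 - 3 * z := by
    have h1 : lam * z ≤ 1 / 4 * z := mul_le_mul_of_nonneg_right hl4 (by linarith)
    rw [hp0]
    nlinarith [sq_nonneg (z - 23 / 8)]
  have hPsi0 : 0 ≤ 2 * p0 * (1 - lam + p0 + 5) - 3 * (z - lam) * (1 - lam + p0) := by
    have h1 : 18 * (2 * p0 * (1 - lam + p0 + 5) - 3 * (z - lam) * (1 - lam + p0))
        = w * (3 * (3 - 5 * lam) ^ 2 + (3 - 5 * lam) ^ 2 * w + (3 - 10 * lam) * w ^ 2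
          + w ^ 3) := by
      rw [hp0, hw]; ring
    have h2 : 0 ≤ 3 - 10 * lam := by linarith
    have h3 : 0 ≤ w * (3 * (3 - 5 * lam) ^ 2 + (3 - 5 * lam) ^ 2 * w + (3 - 10 * lam) * w ^ 2
          + w ^ 3) := by positivity
    linarith
  have hPsi : 0 < 2 * p * (1 - lam + p + 5) - 3 * (z - lam) * (1 - lam + p) := by
    have h1 : (2 * p * (1 - lam + p + 5) - 3 * (z - lam) * (1 - lam + p))
        - (2 * p0 * (1 - lam + p0 + 5) - 3 * (z - lam) * (1 - lam + p0))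
        = (p - p0) * (12 + lam + 2 * (p + p0) - 3 * z) := by ring
    have h2 : 0 < (p - p0) * (12 + lam + 2 * (p + p0) - 3 * z) := by
      apply mul_pos (by linarith)
      linarith
    linarith
  have hH' : 2 * p * (1 - lam + p + 5) ≤ 3 * (z - lam) * (1 - lam + p) := by
    have h1 := mul_le_mul_of_nonneg_left hH hl0.le
    have e1 : lam * (2 * (1 + (v - 1) * lam) * ((1 - lam + lam * (1 + (v - 1) * lam)) + 5))
        = 2 * p * (1 - lam + p + 5) := by rw [hp]; ring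
    have e2 : lam * (3 * (m + 1) * (1 - lam + lam * (1 + (v - 1) * lam)))
        = 3 * (z - lam) * (1 - lam + p) := by rw [hp, hzd]; ring
    linarith
  linarith

end Pool.Agent.H25.EI
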