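import Pool.Agent.H25.EI.Sub

namespace Pool.Agent.H25.EI

open Matrix Finset

/-- integer parts and golden-ratio parts of the 12 vertices `(0,±1,±φ)` (cyclic) of an icosahedron -/
def VX : Fin 12 → Fin 3 → ℤ := ![
    ![0, 1, 0],
    ![1, 0, 0],
    ![0, 0, 1],
    ![0, 1, 0],
    ![1, 0, 0],
    ![0, 0, 1],
    ![0, -1, 0],
    ![-1, 0, 0],
    ![0, 0, -1],
    ![0, -1, 0],
    ![-1, 0, 0],
    ![0, 0, -1]]

def VY : Fin 12 → Fin 3 → ℤ := ![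
    ![0, 0, 1],
    ![0, 1, 0],
    ![1, 0, 0],
    ![0, 0, -1],
    ![0, -1, 0],
    ![-1, 0, 0],
    ![0, 0, 1],
    ![0, 1, 0],
    ![1, 0, 0],
    ![0, 0, -1],
    ![0, -1, 0],
    ![-1, 0, 0]]

/-- eleven labellings of the vertices by the twelve coordinates -/
def lab : Fin 11 → Fin 12 → Fin 12 := ![
    ![8, 0, 7, 3, 2, 11, 10, 5, 4, 1, 9, 6],
    ![3, 4, 7, 5, 0, 10, 8, 11, 9, 2, 1, 6],
    ![6, 4, 5, 3, 0, 7, 9, 8, 1, 11, 2, 10],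
    ![6, 5, 3, 1, 0, 11, 2, 4, 8, 10, 7, 9],
    ![0, 6, 2, 10, 3, 5, 11, 8, 1, 7, 9, 4],
    ![3, 9, 2, 11, 5, 7, 6, 8, 10, 4, 1, 0],
    ![8, 5, 10, 6, 9, 1, 11, 3, 2, 0, 7, 4],
    ![11, 4, 3, 9, 6, 2, 8, 10, 1, 7, 0, 5],
    ![0, 2, 4, 5, 8, 3, 1, 11, 6, 9, 10, 7],
    ![10, 0, 6, 9, 11, 5, 4, 7, 1, 3, 2, 8],
    ![8, 7, 6, 11, 5, 2, 4, 10, 0, 9, 3, 1]]

def X (i : Fin 11) (x : Fin 12) (a : Fin 3) : ℤ := VX (lab i x) a
def Y (i : Fin 11) (x : Fin 12) (a : Fin 3) : ℤ := VY (lab i x) a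

def PZ (i j : Fin 11) (a b : Fin 3) : ℤ := ∑ x, (X i x a * X j x b + Y i x a * Y j x b)
def QZ (i j : Fin 11) (a b : Fin 3) : ℤ :=
  ∑ x, (X i x a * Y j x b + Y i x a * X j x b + Y i x a * Y j x b)

set_option maxRecDepth 100000 in
lemma diag_P : ∀ i a b, PZ i i a b = if a = b then 8 else 0 := by decide +kernel

set_option maxRecDepth 100000 in
lemma diag_Q : ∀ i a b, QZ i i a b = if a = b then 4 else 0 := by decide +kernel

set_option maxRecDepth 100000 in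
lemma off_P : ∀ i j a b, i ≠ j → ∑ k, (PZ i j a k * PZ i j b k + QZ i j a k * QZ i j b k)
    = if a = b then 16 else 0 := by decide +kernel

set_option maxRecDepth 100000 in
lemma off_Q : ∀ i j a b, i ≠ j → ∑ k, (PZ i j a k * QZ i j b k + QZ i j a k * PZ i j b k
    + QZ i j a k * QZ i j b k) = if a = b then 16 else 0 := by decide +kernel

end Pool.Agent.H25.EI
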