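import Pool.Agent.H25.EI.Ico

namespace Pool.Agent.H25.EI

open Matrix Finset

/-- conversely, orthonormal frames with scaled orthogonal gram blocks give an equi-isoclinic family -/
theorem of_frames {v m : ℕ} {lam : ℝ} (w : Fin v → Fin 3 → EuclideanSpace ℝ (Fin m))
    (hv : 2 ≤ v) (hl0 : 0 < lam) (hl1 : lam < 1)
    (hdiag : ∀ i a b, inner ℝ (w i a) (w i b) = if a = b then (1 : ℝ) else 0)
    (hoff : ∀ i j, i ≠ j → ∀ a b, ∑ k, inner ℝ (w j k) (w i a) * inner ℝ (w j k) (w i b)
      = if a = b then lam else 0) :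
    EquiIsoclinic 3 lam (fun i => Submodule.span ℝ (Set.range (w i))) := by
  have hon : ∀ i, Orthonormal ℝ (w i) := by
    intro i
    rw [orthonormal_iff_ite]
    intro a b; rw [hdiag]
  refine ⟨hv, hl0, hl1, ?_, ?_⟩
  · intro i
    rw [finrank_span_eq_card (hon i).linearIndependent, Fintype.card_fin]
  · intro i j hij u hu
    obtain ⟨α, hα⟩ := (Submodule.mem_span_range_iff_exists_fun ℝ).mp hu
    -- the projection
    have hproj : (Submodule.span ℝ (Set.range (w j))).starProjection u
        = ∑ k, inner ℝ (w j k) u • w j k := by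
      apply Submodule.eq_starProjection_of_mem_of_inner_eq_zero
      · exact Submodule.sum_mem _ fun k _ => Submodule.smul_mem _ _
          (Submodule.subset_span ⟨k, rfl⟩)
      · intro z hz
        obtain ⟨β, hβ⟩ := (Submodule.mem_span_range_iff_exists_fun ℝ).mp hz
        rw [← hβ, inner_sum]
        refine Finset.sum_eq_zero fun l _ => ?_
        rw [inner_smul_right, inner_sub_left, sum_inner]
        have : ∑ k, inner ℝ (inner ℝ (w j k) u • w j k) (w j l) = inner ℝ (w j l) u := by
          have e : ∀ k, inner ℝ (inner ℝ (w j k) u • w j k) (w j l)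
              = if k = l then inner ℝ (w j l) u else 0 := by
            intro k
            rw [real_inner_smul_left, hdiag]
            split_ifs with hkl
            · subst hkl; ring
            · ring
          simp_rw [e]; simp
        rw [this, real_inner_comm]
        simp
    have hn1 : ‖(Submodule.span ℝ (Set.range (w j))).starProjection u‖ ^ 2
        = ∑ k, (inner ℝ (w j k) u) ^ 2 := by
      rw [hproj, ← real_inner_self_eq_norm_sq, inner_sum]
      refine Finset.sum_congr rfl fun k _ => ?_
      rw [inner_smul_right, sum_inner]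
      have e : ∀ l, inner ℝ (inner ℝ (w j l) u • w j l) (w j k)
          = if l = k then inner ℝ (w j k) u else 0 := by
        intro l
        rw [real_inner_smul_left, hdiag]
        split_ifs with hkl
        · subst hkl; ring
        · ring
      simp_rw [e]; simp; ring
    have hu2 : ‖u‖ ^ 2 = ∑ a, α a ^ 2 := by
      rw [← hα, ← real_inner_self_eq_norm_sq, inner_sum]
      refine Finset.sum_congr rfl fun a _ => ?_
      rw [inner_smul_right, sum_inner]
      have e : ∀ l, inner ℝ (α l • w i l) (w i a) = if l = a then α a else 0 := by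
        intro l
        rw [real_inner_smul_left, hdiag]
        split_ifs with hkl
        · subst hkl; ring
        · ring
      simp_rw [e]; simp; ring
    have hin : ∀ k, inner ℝ (w j k) u = ∑ a, α a * inner ℝ (w j k) (w i a) := by
      intro k
      rw [← hα, inner_sum]
      refine Finset.sum_congr rfl fun a _ => ?_
      rw [inner_smul_right]
    rw [hn1, hu2]
    have e1 : ∀ k, (inner ℝ (w j k) u) ^ 2
        = ∑ a, ∑ b, α a * α b * (inner ℝ (w j k) (w i a) * inner ℝ (w j k) (w i b)) := by
      intro k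
      rw [hin, sq, Finset.sum_mul_sum]
      refine Finset.sum_congr rfl fun a _ => Finset.sum_congr rfl fun b _ => by ring
    simp_rw [e1]
    rw [Finset.sum_comm]
    have e2 : ∀ a, ∑ k, ∑ b, α a * α b * (inner ℝ (w j k) (w i a) * inner ℝ (w j k) (w i b))
        = lam * α a ^ 2 := by
      intro a
      rw [Finset.sum_comm]
      simp_rw [← Finset.mul_sum, hoff i j hij]
      simp; ring
    simp_rw [e2, ← Finset.mul_sum]

/-- the golden ratio -/
noncomputable def gr : ℝ := (1 + Real.sqrt 5) / 2

lemma gr_sq : gr ^ 2 = gr + 1 := by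
  have h5 : Real.sqrt 5 ^ 2 = 5 := Real.sq_sqrt (by norm_num)
  unfold gr; nlinarith

lemma gr_pos : 0 < gr := by unfold gr; positivity

/-- scale factor -/
noncomputable def sc : ℝ := Real.sqrt (8 + 4 * gr)

lemma sc_sq : sc ^ 2 = 8 + 4 * gr := Real.sq_sqrt (by have := gr_pos; linarith)

lemma sc_pos : 0 < sc := Real.sqrt_pos.mpr (by have := gr_pos; linarith)

noncomputable def wI (m : ℕ) (i : Fin 11) (a : Fin 3) : EuclideanSpace ℝ (Fin m) :=
  WithLp.toLp 2 fun x => if hx : (x : ℕ) < 12 then
    ((X i ⟨x, hx⟩ a : ℝ) + gr * (Y i ⟨x, hx⟩ a : ℝ)) / sc else 0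

lemma inner_wI {m : ℕ} (hm : 12 ≤ m) (i j : Fin 11) (a b : Fin 3) :
    inner ℝ (wI m i a) (wI m j b)
      = ((PZ i j a b : ℝ) + gr * (QZ i j a b : ℝ)) / (8 + 4 * gr) := by
  have e : inner ℝ (wI m i a) (wI m j b) = ∑ x, (((X i x a : ℝ) + gr * (Y i x a : ℝ)) *
      ((X j x b : ℝ) + gr * (Y j x b : ℝ))) / (8 + 4 * gr) := by
    simp only [wI, PiLp.inner_apply]
    symm
    refine Fintype.sum_of_injective (Fin.castLE hm) (Fin.castLE_injective hm) _ _ ?_ ?_
    · intro x hx
      have : ¬ (x : ℕ) < 12 := by
        intro hlt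
        exact hx ⟨⟨x, hlt⟩, by ext; simp⟩
      simp [this]
    · intro x
      rw [← sc_sq]
      have hx : ((Fin.castLE hm x : Fin m) : ℕ) < 12 := by simp
      have h0 := sc_pos.ne'
      simp only [RCLike.inner_apply, conj_trivial, Fin.val_castLE, Fin.is_lt, dif_pos, Fin.eta]
      field_simp
  rw [e, ← Finset.sum_div]
  congr 1
  simp only [PZ, QZ]
  push_cast
  rw [Finset.mul_sum, ← Finset.sum_add_distrib]
  refine Finset.sum_congr rfl fun x _ => ?_
  linear_combination ((Y i x a : ℝ) * (Y j x b : ℝ)) * gr_sq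

/-- eleven equi-isoclinic 3-planes in `ℝ^m`, `m ≥ 12`, parameter `1/5` -/
theorem eleven (m : ℕ) (hm : 12 ≤ m) :
    ∃ U : Fin 11 → Submodule ℝ (EuclideanSpace ℝ (Fin m)),
    EquiIsoclinic 3 (1 / 5) U := by
  refine ⟨_, of_frames (wI m) (by norm_num) (by norm_num) (by norm_num) ?_ ?_⟩
  · intro i a b
    rw [inner_wI hm, diag_P, diag_Q]
    have := gr_pos
    split_ifs
    · push_cast; field_simp
    · simp
  · intro i j hij a b
    have h1 := off_P i j
    have hg := gr_pos
    have hs : (8 + 4 * gr) ≠ 0 := by linarith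
    have e : ∀ k, inner ℝ (wI m j k) (wI m i a) * inner ℝ (wI m j k) (wI m i b)
        = (((PZ i j a k : ℝ) * PZ i j b k + (QZ i j a k : ℝ) * QZ i j b k)
          + gr * ((PZ i j a k : ℝ) * QZ i j b k + (QZ i j a k : ℝ) * PZ i j b k
            + (QZ i j a k : ℝ) * QZ i j b k)) / (8 + 4 * gr) ^ 2 := by
      intro k
      rw [real_inner_comm (wI m i a) (wI m j k), real_inner_comm (wI m i b) (wI m j k), inner_wI hm,
        inner_wI hm,
        div_mul_div_comm, ← sq]
      congr 1
      linear_combination ((QZ i j a k : ℝ) * (QZ i j b k : ℝ)) * gr_sq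
    simp_rw [e]
    rw [← Finset.sum_div, Finset.sum_add_distrib, ← Finset.mul_sum]
    have hP := off_P i j a b hij
    have hQ := off_Q i j a b hij
    have hP' : ∑ k, ((PZ i j a k : ℝ) * PZ i j b k + (QZ i j a k : ℝ) * QZ i j b k)
        = if a = b then 16 else 0 := by
      have := congrArg (fun z : ℤ => (z : ℝ)) hP
      push_cast at this
      exact this
    have hQ' : ∑ k, ((PZ i j a k : ℝ) * QZ i j b k + (QZ i j a k : ℝ) * PZ i j b k
            + (QZ i j a k : ℝ) * QZ i j b k) = if a = b then 16 else 0 := by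
      have := congrArg (fun z : ℤ => (z : ℝ)) hQ
      push_cast at this
      exact this
    rw [hP', hQ', div_eq_iff (pow_ne_zero 2 hs)]
    split_ifs
    · linear_combination (-(16 : ℝ) / 5) * gr_sq
    · ring

end Pool.Agent.H25.EI
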