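import Pool.Agent.H25.EI.Core

namespace Pool.Agent.H25.EI

open Matrix Finset

variable {v m : ℕ} {lam : ℝ} {A : Fin v → Matrix (Fin m) (Fin 3) ℝ}

lemma det_sq (G : Matrix (Fin 3) (Fin 3) ℝ) (c : ℝ)
    (hG : G * Gᵀ = (c ^ 2) • (1 : Matrix (Fin 3) (Fin 3) ℝ)) : G.det ^ 2 = c ^ 6 := by
  have := congrArg Matrix.det hG
  rw [Matrix.det_mul, Matrix.det_transpose, Matrix.det_smul, Matrix.det_one] at this
  simp only [Fintype.card_fin] at this
  rw [sq, this]; ring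

lemma minor (G : Matrix (Fin 3) (Fin 3) ℝ) (c : ℝ) (hc : 0 < c)
    (hG : G * Gᵀ = (c ^ 2) • (1 : Matrix (Fin 3) (Fin 3) ℝ)) (hdet : 0 < G.det) (a b : Fin 3) :
    G (a + 1) (b + 1) * G (a + 2) (b + 2) - G (a + 1) (b + 2) * G (a + 2) (b + 1)
      = c * G a b := by
  have hd : G.det = c ^ 3 := by
    have h1 := det_sq G c hG
    have h2 : G.det ^ 2 = (c ^ 3) ^ 2 := by rw [h1]; ring
    exact (pow_left_inj₀ hdet.le (by positivity) two_ne_zero).mp h2
  have hadj : G.adjugate = c • Gᵀ := by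
    have h1 : G.adjugate * (G * Gᵀ) = G.det • Gᵀ := by
      rw [← Matrix.mul_assoc, Matrix.adjugate_mul, Matrix.smul_mul, Matrix.one_mul]
    rw [hG, hd, Matrix.mul_smul, Matrix.mul_one] at h1
    have h2 : (c ^ 2) • G.adjugate = (c ^ 2) • (c • Gᵀ) := by
      rw [h1, smul_smul]; congr 1
    have hc2 : (c ^ 2) ≠ 0 := by positivity
    exact smul_right_injective _ hc2 h2
  have key : ∀ a b : Fin 3, G.adjugate b a = c * G a b := by
    intro a b; rw [hadj]; simp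
  have h00 := key 0 0
  have h01 := key 0 1
  have h02 := key 0 2
  have h10 := key 1 0
  have h11 := key 1 1
  have h12 := key 1 2
  have h20 := key 2 0
  have h21 := key 2 1
  have h22 := key 2 2
  simp [Matrix.adjugate_fin_three] at h00 h01 h02 h10 h11 h12 h20 h21 h22
  fin_cases a <;> fin_cases b <;> simp <;> linarith

/-- a scaled orthogonal 3x3 matrix with negative determinant has `-k` as an eigenvalue -/
lemma exists_neg_eig (R : Matrix (Fin 3) (Fin 3) ℝ) (k : ℝ) (hk : 0 < k)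
    (hR : R * Rᵀ = (k ^ 2) • (1 : Matrix (Fin 3) (Fin 3) ℝ)) (hdet : R.det < 0) :
    ∃ y : Fin 3 → ℝ, y ≠ 0 ∧ R *ᵥ y = -k • y := by
  have hd : R.det = -k ^ 3 := by
    have h1 := det_sq R k hR
    have h2 : (-R.det) ^ 2 = (k ^ 3) ^ 2 := by rw [neg_sq, h1]; ring
    have := (pow_left_inj₀ (by linarith) (by positivity) two_ne_zero).mp h2
    linarith
  have h0 : (R + k • (1 : Matrix (Fin 3) (Fin 3) ℝ)).det = 0 := by
    have e1 : R * (Rᵀ + k • (1 : Matrix (Fin 3) (Fin 3) ℝ))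
        = k • (R + k • (1 : Matrix (Fin 3) (Fin 3) ℝ)) := by
      rw [Matrix.mul_add, hR, Matrix.mul_smul, Matrix.mul_one, smul_add, smul_smul, sq]
      abel
    have e2 := congrArg Matrix.det e1
    rw [Matrix.det_mul, Matrix.det_smul] at e2
    have e3 : (Rᵀ + k • (1 : Matrix (Fin 3) (Fin 3) ℝ)).det
        = (R + k • (1 : Matrix (Fin 3) (Fin 3) ℝ)).det := by
      rw [← Matrix.det_transpose, Matrix.transpose_add, Matrix.transpose_transpose,
        Matrix.transpose_smul, Matrix.transpose_one]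
    rw [e3, hd] at e2
    simp only [Fintype.card_fin] at e2
    have hk3 : (0 : ℝ) < k ^ 3 := by positivity
    nlinarith
  obtain ⟨y, hy, hy2⟩ := Matrix.exists_mulVec_eq_zero_iff.mpr h0
  refine ⟨y, hy, ?_⟩
  rw [Matrix.add_mulVec, Matrix.smul_mulVec, Matrix.one_mulVec] at hy2
  rw [neg_smul]
  exact eq_neg_of_add_eq_zero_left hy2

lemma gram_det_ne (h : Data lam A) (hl0 : 0 < lam) (i j : Fin v) :
    ((A i)ᵀ * A j).det ≠ 0 := by
  intro h0
  have := congrArg Matrix.det (gram_sq h i j)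
  rw [Matrix.det_mul, h0, zero_mul, Matrix.det_smul, Matrix.det_one] at this
  have hm : 0 < mu lam i j := by unfold mu; split_ifs <;> [norm_num; exact hl0]
  have : (0:ℝ) < mu lam i j ^ Fintype.card (Fin 3) * 1 := by positivity
  linarith

/-- no negative holonomy when `c > 1/2` -/
lemma hol (h : Data lam A) (c : ℝ) (hc : 1 / 2 < c) (hc2 : c ^ 2 = lam)
    (i j k : Fin v) (hij : i ≠ j) (hik : i ≠ k) (hjk : j ≠ k) :
    0 < (((A i)ᵀ * A j) * ((A j)ᵀ * A k) * ((A k)ᵀ * A i)).det := by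
  have hc0 : 0 < c := by linarith
  have hl0 : 0 < lam := by rw [← hc2]; positivity
  by_contra hneg
  push Not at hneg
  set R := ((A i)ᵀ * A j) * ((A j)ᵀ * A k) * ((A k)ᵀ * A i) with hR
  have hne : R.det ≠ 0 := by
    rw [hR, Matrix.det_mul, Matrix.det_mul]
    exact mul_ne_zero (mul_ne_zero (gram_det_ne h hl0 _ _) (gram_det_ne h hl0 _ _))
      (gram_det_ne h hl0 _ _)
  have hlt : R.det < 0 := lt_of_le_of_ne hneg hne
  have hRR : R * Rᵀ = ((c ^ 3) ^ 2) • (1 : Matrix (Fin 3) (Fin 3) ℝ) := by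
    have e : Rᵀ = ((A i)ᵀ * A k) * (((A k)ᵀ * A j) * ((A j)ᵀ * A i)) := by
      rw [hR]; simp only [Matrix.transpose_mul, Matrix.transpose_transpose]
    have h1 := h.off k i (Ne.symm hik)
    have h2 := h.off j k hjk
    have h3 := h.off i j hij
    calc R * Rᵀ = ((A i)ᵀ * A j) * (((A j)ᵀ * A k) * ((((A k)ᵀ * A i) * ((A i)ᵀ * A k)) *
          (((A k)ᵀ * A j) * ((A j)ᵀ * A i)))) := by
            rw [e, hR]; simp only [Matrix.mul_assoc]
      _ = ((A i)ᵀ * A j) * (((A j)ᵀ * A k) * ((lam • (1 : Matrix (Fin 3) (Fin 3) ℝ)) *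
          (((A k)ᵀ * A j) * ((A j)ᵀ * A i)))) := by rw [h1]
      _ = lam • (((A i)ᵀ * A j) * ((((A j)ᵀ * A k) * ((A k)ᵀ * A j)) * ((A j)ᵀ * A i))) := by
            simp only [Matrix.smul_mul, Matrix.mul_smul, Matrix.one_mul, Matrix.mul_assoc]
      _ = lam • (((A i)ᵀ * A j) * ((lam • (1 : Matrix (Fin 3) (Fin 3) ℝ)) * ((A j)ᵀ * A i))) := by
            rw [h2]
      _ = (lam * lam) • (((A i)ᵀ * A j) * ((A j)ᵀ * A i)) := by
            simp only [Matrix.smul_mul, Matrix.mul_smul, Matrix.one_mul, smul_smul]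
      _ = ((c ^ 3) ^ 2) • (1 : Matrix (Fin 3) (Fin 3) ℝ) := by
            rw [h3, smul_smul, ← hc2]; congr 1; ring
  obtain ⟨y, hy, hRy⟩ := exists_neg_eig R (c ^ 3) (by positivity) hRR hlt
  -- test vector
  set q : Fin m → ℝ := c • (A i *ᵥ y) - A j *ᵥ (((A j)ᵀ * A i) *ᵥ y)
    - A k *ᵥ (((A k)ᵀ * A i) *ᵥ y) with hq
  have hyy : 0 < y ⬝ᵥ y := by
    have := dotProduct_self_star_pos_iff (v := y)
    simpa using this.mpr hy
  have dp : ∀ (s t : Fin v) (a b : Fin 3 → ℝ), (A s *ᵥ a) ⬝ᵥ (A t *ᵥ b)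
      = a ⬝ᵥ (((A s)ᵀ * A t) *ᵥ b) := by
    intro s t a b
    rw [← Matrix.mulVec_mulVec, Matrix.dotProduct_mulVec, Matrix.vecMul_mulVec,
      ← Matrix.dotProduct_mulVec, Matrix.mulVec_mulVec]
  have dpt : ∀ (s t : Fin v) (a b : Fin 3 → ℝ), (((A s)ᵀ * A t) *ᵥ a) ⬝ᵥ b
      = a ⬝ᵥ (((A t)ᵀ * A s) *ᵥ b) := by
    intro s t a b
    have : ((A t)ᵀ * A s) = ((A s)ᵀ * A t)ᵀ := by
      rw [Matrix.transpose_mul, Matrix.transpose_transpose]
    rw [this, Matrix.mulVec_transpose, dotProduct_comm, Matrix.dotProduct_mulVec,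
      dotProduct_comm]
  have g1 : (A i *ᵥ y) ⬝ᵥ (A i *ᵥ y) = y ⬝ᵥ y := by
    rw [dp, h.diag, Matrix.one_mulVec]
  have g2 : ∀ s, i ≠ s → (A i *ᵥ y) ⬝ᵥ (A s *ᵥ (((A s)ᵀ * A i) *ᵥ y)) = lam * (y ⬝ᵥ y) := by
    intro s hs
    rw [dp, Matrix.mulVec_mulVec, h.off i s hs, Matrix.smul_mulVec, Matrix.one_mulVec,
      dotProduct_smul, smul_eq_mul]
  have g3 : ∀ s, i ≠ s → (A s *ᵥ (((A s)ᵀ * A i) *ᵥ y)) ⬝ᵥ (A s *ᵥ (((A s)ᵀ * A i) *ᵥ y))
      = lam * (y ⬝ᵥ y) := by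
    intro s hs
    rw [dp, h.diag, Matrix.one_mulVec, dpt, Matrix.mulVec_mulVec, h.off i s hs,
      Matrix.smul_mulVec, Matrix.one_mulVec, dotProduct_smul, smul_eq_mul]
  have g4 : (A j *ᵥ (((A j)ᵀ * A i) *ᵥ y)) ⬝ᵥ (A k *ᵥ (((A k)ᵀ * A i) *ᵥ y))
      = -c ^ 3 * (y ⬝ᵥ y) := by
    rw [dp, dpt, Matrix.mulVec_mulVec, Matrix.mulVec_mulVec]
    rw [← hR, hRy, dotProduct_smul, smul_eq_mul]
  have hqq : q ⬝ᵥ q = (3 * c ^ 2 - 6 * c ^ 3) * (y ⬝ᵥ y) := by
    rw [hq]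
    simp only [sub_dotProduct, dotProduct_sub, smul_dotProduct, dotProduct_smul, smul_eq_mul]
    rw [dotProduct_comm (A j *ᵥ (((A j)ᵀ * A i) *ᵥ y)) (A i *ᵥ y),
      dotProduct_comm (A k *ᵥ (((A k)ᵀ * A i) *ᵥ y)) (A i *ᵥ y),
      dotProduct_comm (A k *ᵥ (((A k)ᵀ * A i) *ᵥ y)) (A j *ᵥ (((A j)ᵀ * A i) *ᵥ y)),
      g1, g2 j hij, g2 k hik, g3 j hij, g3 k hik, g4, ← hc2]
    ring
  have hnn : 0 ≤ q ⬝ᵥ q := by
    have := dotProduct_self_star_nonneg q
    simpa using this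
  rw [hqq] at hnn
  have : 3 * c ^ 2 - 6 * c ^ 3 < 0 := by
    have : 3 * c ^ 2 * (1 - 2 * c) < 0 := mul_neg_of_pos_of_neg (by positivity) (by linarith)
    linarith
  nlinarith

/-- orientation: after changing signs all gram blocks have positive determinant -/
lemma orient (h : Data lam A) (c : ℝ) (hc : 1 / 2 < c) (hc2 : c ^ 2 = lam) (i0 : Fin v) :
    ∃ A' : Fin v → Matrix (Fin m) (Fin 3) ℝ, Data lam A' ∧ ∀ i j, 0 < ((A' i)ᵀ * A' j).det := by
  have hc0 : 0 < c := by linarith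
  have hl0 : 0 < lam := by rw [← hc2]; positivity
  let s : Fin v → ℝ := fun j => if 0 < ((A i0)ᵀ * A j).det then 1 else -1
  have hs : ∀ j, s j * s j = 1 := by intro j; simp only [s]; split_ifs <;> norm_num
  have hs3 : ∀ j, s j ^ 3 = s j := by intro j; simp only [s]; split_ifs <;> norm_num
  have hg : ∀ i j, ((s i • A i)ᵀ * (s j • A j)) = (s i * s j) • ((A i)ᵀ * A j) := by
    intro i j
    rw [Matrix.transpose_smul, Matrix.smul_mul, Matrix.mul_smul, smul_smul]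
  have hdet : ∀ i j, ((s i • A i)ᵀ * (s j • A j)).det = s i * s j * ((A i)ᵀ * A j).det := by
    intro i j
    rw [hg, Matrix.det_smul, Fintype.card_fin, mul_pow, hs3, hs3]
  have hdt : ∀ i j, ((A i)ᵀ * A j).det = ((A j)ᵀ * A i).det := by
    intro i j
    rw [← Matrix.det_transpose, Matrix.transpose_mul, Matrix.transpose_transpose]
  have h0 : ∀ j, 0 < s j * ((A i0)ᵀ * A j).det := by
    intro j
    have hne := gram_det_ne h hl0 i0 j
    simp only [s]
    split_ifs with hh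
    · linarith
    · have : ((A i0)ᵀ * A j).det < 0 := lt_of_le_of_ne (not_lt.mp hh) hne
      linarith
  have hs0 : s i0 = 1 := by
    simp only [s]; rw [h.diag, Matrix.det_one]; simp
  refine ⟨fun i => s i • A i, ⟨?_, ?_⟩, ?_⟩
  · intro i
    rw [hg, hs, one_smul, h.diag]
  · intro i j hij
    rw [hg, hg, Matrix.smul_mul, Matrix.mul_smul, smul_smul, h.off i j hij]
    have : s i * s j * (s j * s i) = 1 := by
      calc s i * s j * (s j * s i) = (s i * s i) * (s j * s j) := by ring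
        _ = 1 := by rw [hs, hs]; norm_num
    rw [this, one_smul]
  · intro i j
    simp only
    rw [hdet]
    by_cases hij : i = j
    · subst hij
      rw [hs, h.diag, Matrix.det_one]; norm_num
    by_cases hi : i0 = i
    · subst hi
      rw [hs0, one_mul]; exact h0 j
    by_cases hj : i0 = j
    · subst hj
      rw [hs0, mul_one, hdt]; exact h0 i
    have hh := hol h c hc hc2 i0 i j hi hj hij
    rw [Matrix.det_mul, Matrix.det_mul, hdt j i0] at hh
    have e : s i * s j * ((A i)ᵀ * A j).det * ((((A i0)ᵀ * A i).det) ^ 2 * (((A i0)ᵀ * A j).det) ^ 2)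
        = (s i * ((A i0)ᵀ * A i).det) * (s j * ((A i0)ᵀ * A j).det) *
          (((A i0)ᵀ * A i).det * ((A i)ᵀ * A j).det * ((A i0)ᵀ * A j).det) := by ring
    have hpos : 0 < (s i * ((A i0)ᵀ * A i).det) * (s j * ((A i0)ᵀ * A j).det) *
          (((A i0)ᵀ * A i).det * ((A i)ᵀ * A j).det * ((A i0)ᵀ * A j).det) :=
      mul_pos (mul_pos (h0 i) (h0 j)) hh
    rw [← e] at hpos
    exact pos_of_mul_pos_left hpos (by positivity)

end Pool.Agent.H25.EI
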