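import Pool.Agent.H25.EI.Spec2
import Pool.Agent.H25.EI.Eig
import Pool.Agent.H25.EI.Anti

namespace Pool.Agent.H25.EI

open Matrix Finset

variable {v m : ℕ} {lam : ℝ} {A : Fin v → Matrix (Fin m) (Fin 3) ℝ}

lemma mu_symm (lam : ℝ) (i j : Fin v) : mu lam i j = mu lam j i := by
  unfold mu; simp [eq_comm]

lemma PPP (h : Data lam A) (i j : Fin v) : P A i * P A j * P A i = (mu lam i j) • P A i := by
  have : P A i * P A j * P A i = A i * (((A i)ᵀ * A j) * ((A j)ᵀ * A i)) * (A i)ᵀ := by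
    simp only [P, Matrix.mul_assoc]
  rw [this, gram_sq h, Matrix.mul_smul, Matrix.mul_one, Matrix.smul_mul]
  rfl

lemma PP (h : Data lam A) (i : Fin v) : P A i * P A i = P A i := by
  simp only [P]
  rw [Matrix.mul_assoc, ← Matrix.mul_assoc (A i)ᵀ, h.diag, Matrix.one_mul]

/-- traceless part -/
noncomputable def D (A : Fin v → Matrix (Fin m) (Fin 3) ℝ) (M : Matrix (Fin m) (Fin m) ℝ) :
    Matrix (Fin m) (Fin m) ℝ :=
  ∑ i, (P A i * M * P A i - (1 / 3 * trace (M * P A i)) • P A i)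

lemma D_transpose (M : Matrix (Fin m) (Fin m) ℝ) (hM : Mᵀ = M) : (D A M)ᵀ = D A M := by
  rw [D, Matrix.transpose_sum]
  refine Finset.sum_congr rfl fun i _ => ?_
  rw [Matrix.transpose_sub, Matrix.transpose_smul, Matrix.transpose_mul, Matrix.transpose_mul,
    P_transpose, hM, Matrix.mul_assoc]

lemma tr_PMP_P (h : Data lam A) (M : Matrix (Fin m) (Fin m) ℝ) (i j : Fin v) :
    trace (P A i * M * P A i * P A j) = mu lam i j * trace (M * P A i) := by
  have : trace (P A i * M * P A i * P A j) = trace (M * (P A i * P A j * P A i)) := by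
    have e : P A i * M * P A i * P A j = P A i * (M * P A i * P A j) := by
      simp only [Matrix.mul_assoc]
    rw [e, Matrix.trace_mul_comm]
    simp only [Matrix.mul_assoc]
  rw [this, PPP h, Matrix.mul_smul, Matrix.trace_smul, smul_eq_mul]

lemma trPP' (h : Data lam A) (i j : Fin v) : trace (P A i * P A j) = 3 * mu lam i j := by
  rw [trPP h, mu_symm]

lemma tr_D_P (h : Data lam A) (M : Matrix (Fin m) (Fin m) ℝ) (j : Fin v) :
    trace (D A M * P A j) = 0 := by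
  rw [D, Finset.sum_mul, Matrix.trace_sum]
  refine Finset.sum_eq_zero fun i _ => ?_
  rw [Matrix.sub_mul, Matrix.trace_sub, Matrix.smul_mul, Matrix.trace_smul, tr_PMP_P h,
    trPP' h, smul_eq_mul]
  ring

lemma tr_D_F (h : Data lam A) (M : Matrix (Fin m) (Fin m) ℝ) : trace (D A M * F A) = 0 := by
  rw [F, Finset.mul_sum, Matrix.trace_sum]
  exact Finset.sum_eq_zero fun i _ => tr_D_P h M i

lemma tr_M_D (M : Matrix (Fin m) (Fin m) ℝ) :
    trace (M * D A M) = ∑ i, (trace (P A i * (M * P A i * M)) - 1 / 3 * trace (M * P A i) ^ 2) := by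
  rw [D, Finset.mul_sum, Matrix.trace_sum]
  refine Finset.sum_congr rfl fun i _ => ?_
  rw [Matrix.mul_sub, Matrix.trace_sub, Matrix.mul_smul, Matrix.trace_smul, smul_eq_mul]
  have : trace (M * (P A i * M * P A i)) = trace (P A i * (M * P A i * M)) := by
    rw [← Matrix.mul_assoc, Matrix.trace_mul_comm]
    simp only [Matrix.mul_assoc]
  rw [this]; ring

lemma tr_D_D (h : Data lam A) (M : Matrix (Fin m) (Fin m) ℝ) :
    trace (D A M * D A M) = ∑ i, ∑ j, (trace (P A j * P A i * (M * (P A i * P A j) * M))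
      - 1 / 3 * mu lam i j * (trace (M * P A i) * trace (M * P A j))) := by
  have e0 : D A M * D A M = ∑ i, ∑ j,
      (P A i * M * P A i - (1 / 3 * trace (M * P A i)) • P A i) *
      (P A j * M * P A j - (1 / 3 * trace (M * P A j)) • P A j) := by
    rw [D, Finset.sum_mul_sum]
  rw [e0, Matrix.trace_sum]
  refine Finset.sum_congr rfl fun i _ => ?_
  rw [Matrix.trace_sum]
  refine Finset.sum_congr rfl fun j _ => ?_
  rw [Matrix.sub_mul, Matrix.mul_sub, Matrix.mul_sub, Matrix.trace_sub, Matrix.trace_sub,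
    Matrix.trace_sub]
  simp only [Matrix.smul_mul, Matrix.mul_smul, Matrix.trace_smul, smul_eq_mul]
  have e1 : trace (P A i * M * P A i * (P A j * M * P A j))
      = trace (P A j * P A i * (M * (P A i * P A j) * M)) := by
    have : P A i * M * P A i * (P A j * M * P A j) = (P A i * M * P A i * P A j * M) * P A j := by
      simp only [Matrix.mul_assoc]
    rw [this, Matrix.trace_mul_comm]
    simp only [Matrix.mul_assoc]
  have e2 : trace (P A i * (P A j * M * P A j)) = mu lam i j * trace (M * P A j) := by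
    rw [Matrix.trace_mul_comm, tr_PMP_P h, mu_symm]
  rw [e1, e2, tr_PMP_P h, trPP' h]
  ring

lemma bessel2 (h : Data lam A) (hl0 : 0 < lam) (hl1 : lam < 1) (hv : 1 ≤ v)
    (M : Matrix (Fin m) (Fin m) ℝ) (hM : Mᵀ = M) (tau : ℝ) :
    ∑ i, trace (M * P A i) ^ 2 - lam / (1 + ((v : ℝ) - 1) * lam) * trace (M * F A) ^ 2
      ≤ 3 * (1 - lam) * (trace (M * M) - 2 * tau * trace (M * D A M)
        + tau ^ 2 * trace (D A M * D A M)) := by
  have hb := bessel h hl0 hl1 hv (M - tau • D A M) (by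
    rw [Matrix.transpose_sub, Matrix.transpose_smul, hM, D_transpose M hM])
  have e1 : ∀ i, trace ((M - tau • D A M) * P A i) = trace (M * P A i) := by
    intro i
    rw [Matrix.sub_mul, Matrix.smul_mul, Matrix.trace_sub, Matrix.trace_smul, tr_D_P h]
    simp
  have e2 : trace ((M - tau • D A M) * F A) = trace (M * F A) := by
    rw [Matrix.sub_mul, Matrix.smul_mul, Matrix.trace_sub, Matrix.trace_smul, tr_D_F h]
    simp
  have e3 : trace ((M - tau • D A M) * (M - tau • D A M)) = trace (M * M)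
      - 2 * tau * trace (M * D A M) + tau ^ 2 * trace (D A M * D A M) := by
    rw [Matrix.sub_mul, Matrix.mul_sub, Matrix.mul_sub, Matrix.trace_sub, Matrix.trace_sub,
      Matrix.trace_sub]
    simp only [Matrix.smul_mul, Matrix.mul_smul, Matrix.trace_smul, smul_eq_mul]
    rw [Matrix.trace_mul_comm (D A M) M]
    ring
  simp_rw [e1] at hb
  rw [e2, e3] at hb
  exact hb

/-- test matrices -/
noncomputable def Nx (y : Fin m → ℝ) (x : Fin m) : Matrix (Fin m) (Fin m) ℝ :=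
  vecMulVec (Pi.single x 1) y + vecMulVec y (Pi.single x 1)

lemma Nx_transpose (y : Fin m → ℝ) (x : Fin m) : (Nx y x)ᵀ = Nx y x := by
  ext z w; simp [Nx, vecMulVec_apply]; ring

lemma tvv (R C : Matrix (Fin m) (Fin m) ℝ) (a b c d : Fin m → ℝ) :
    trace (R * (vecMulVec a b * C * vecMulVec c d)) = (b ⬝ᵥ (C *ᵥ c)) * (d ⬝ᵥ (R *ᵥ a)) := by
  rw [vecMulVec_mul, vecMulVec_mul_vecMulVec, Matrix.mul_vecMulVec, trace_vecMulVec,
    Matrix.dotProduct_mulVec b C c, dotProduct_smul, smul_eq_mul, dotProduct_comm (R *ᵥ a) d]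

lemma sum_tr (y : Fin m → ℝ) (R C : Matrix (Fin m) (Fin m) ℝ) :
    ∑ x, trace (R * (Nx y x * C * Nx y x))
      = y ⬝ᵥ ((R * Cᵀ) *ᵥ y) + (y ⬝ᵥ (C *ᵥ y)) * trace R + trace C * (y ⬝ᵥ (R *ᵥ y))
        + y ⬝ᵥ ((Cᵀ * R) *ᵥ y) := by
  have e : ∀ x, trace (R * (Nx y x * C * Nx y x))
      = (y ᵥ* C) x * (y ᵥ* R) x + (y ⬝ᵥ (C *ᵥ y)) * R x x + C x x * (y ⬝ᵥ (R *ᵥ y))
        + (C *ᵥ y) x * (R *ᵥ y) x := by
    intro x
    have s1 : ∀ B : Matrix (Fin m) (Fin m) ℝ, y ⬝ᵥ (B *ᵥ (Pi.single x 1)) = (y ᵥ* B) x := by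
      intro B
      rw [Matrix.dotProduct_mulVec, dotProduct_single_one]
    have s2 : ∀ B : Matrix (Fin m) (Fin m) ℝ,
        (Pi.single x (1:ℝ) : Fin m → ℝ) ⬝ᵥ (B *ᵥ (Pi.single x 1)) = B x x := by
      intro B
      rw [single_one_dotProduct, Matrix.mulVec_single_one]; rfl
    have s3 : ∀ B : Matrix (Fin m) (Fin m) ℝ,
        (Pi.single x (1:ℝ) : Fin m → ℝ) ⬝ᵥ (B *ᵥ y) = (B *ᵥ y) x := by
      intro B
      rw [single_one_dotProduct]
    simp only [Nx, Matrix.add_mul, Matrix.mul_add, Matrix.trace_add, tvv, s1, s2, s3]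
    ring
  simp_rw [e, Finset.sum_add_distrib, ← Finset.mul_sum, ← Finset.sum_mul]
  have t1 : ∑ x, (y ᵥ* C) x * (y ᵥ* R) x = y ⬝ᵥ ((R * Cᵀ) *ᵥ y) := by
    rw [← Matrix.mulVec_mulVec, Matrix.dotProduct_mulVec, Matrix.mulVec_transpose,
      dotProduct_comm]
    rfl
  have t2 : ∑ x, (C *ᵥ y) x * (R *ᵥ y) x = y ⬝ᵥ ((Cᵀ * R) *ᵥ y) := by
    rw [← Matrix.mulVec_mulVec, Matrix.dotProduct_mulVec, Matrix.vecMul_transpose]
    rfl
  rw [t1, t2]
  rfl


lemma tr_Nx_Q (y : Fin m → ℝ) (x : Fin m) (Q : Matrix (Fin m) (Fin m) ℝ) (hQ : Qᵀ = Q) :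
    trace (Nx y x * Q) = 2 * (Q *ᵥ y) x := by
  rw [Nx, Matrix.add_mul, Matrix.trace_add, vecMulVec_mul, vecMulVec_mul, trace_vecMulVec,
    trace_vecMulVec, single_one_dotProduct]
  have e1 : y ᵥ* Q = Q *ᵥ y := by
    conv_lhs => rw [← hQ]
    rw [Matrix.vecMul_transpose]
  have e2 : y ⬝ᵥ ((Pi.single x (1:ℝ) : Fin m → ℝ) ᵥ* Q) = (Q *ᵥ y) x := by
    rw [dotProduct_comm, ← Matrix.dotProduct_mulVec, single_one_dotProduct]
  rw [e1, e2]; ring

lemma sum_Nx_sq (y : Fin m → ℝ) (Q Q' : Matrix (Fin m) (Fin m) ℝ) (hQ : Qᵀ = Q)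
    (hQ' : Q'ᵀ = Q') :
    ∑ x, trace (Nx y x * Q) * trace (Nx y x * Q') = 4 * (y ⬝ᵥ ((Q * Q') *ᵥ y)) := by
  have e : ∀ x, trace (Nx y x * Q) * trace (Nx y x * Q') = 4 * ((Q *ᵥ y) x * (Q' *ᵥ y) x) := by
    intro x; rw [tr_Nx_Q y x Q hQ, tr_Nx_Q y x Q' hQ']; ring
  simp_rw [e, ← Finset.mul_sum]
  congr 1
  rw [← Matrix.mulVec_mulVec, Matrix.dotProduct_mulVec]
  have e1 : y ᵥ* Q = Q *ᵥ y := by
    conv_lhs => rw [← hQ]
    rw [Matrix.vecMul_transpose]
  rw [e1]; rfl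

lemma rho_symm (y : Fin m → ℝ) (i j : Fin v) :
    y ⬝ᵥ ((P A j * P A i) *ᵥ y) = y ⬝ᵥ ((P A i * P A j) *ᵥ y) := by
  have : P A j * P A i = (P A i * P A j)ᵀ := by
    rw [Matrix.transpose_mul, P_transpose, P_transpose]
  rw [this, Matrix.mulVec_transpose, dotProduct_comm, ← Matrix.dotProduct_mulVec]

lemma sum_D (h : Data lam A) (y : Fin m → ℝ) :
    ∑ x, trace (Nx y x * D A (Nx y x)) = 20 / 3 * (y ⬝ᵥ (F A *ᵥ y)) := by
  simp_rw [tr_M_D]
  rw [Finset.sum_comm]
  have e : ∀ i, ∑ x, (trace (P A i * (Nx y x * P A i * Nx y x)) - 1 / 3 * trace (Nx y x * P A i) ^ 2)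
      = 20 / 3 * (y ⬝ᵥ (P A i *ᵥ y)) := by
    intro i
    rw [Finset.sum_sub_distrib, sum_tr, P_transpose, PP h, trP1 h, ← Finset.mul_sum]
    simp_rw [sq]
    rw [sum_Nx_sq y _ _ (P_transpose i) (P_transpose i), PP h]
    ring
  simp_rw [e, ← Finset.mul_sum]
  congr 1
  rw [F, Matrix.sum_mulVec, dotProduct_sum]

lemma sum_DD (h : Data lam A) (y : Fin m → ℝ) :
    ∑ x, trace (D A (Nx y x) * D A (Nx y x))
      = 20 / 3 * ((1 - lam) * (y ⬝ᵥ (F A *ᵥ y)) + lam * (y ⬝ᵥ ((F A * F A) *ᵥ y))) := by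
  simp_rw [tr_D_D h]
  rw [Finset.sum_comm]
  have e : ∀ i, ∑ x, ∑ j, (trace (P A j * P A i * (Nx y x * (P A i * P A j) * Nx y x))
      - 1 / 3 * mu lam i j * (trace (Nx y x * P A i) * trace (Nx y x * P A j)))
      = 20 / 3 * ∑ j, mu lam i j * (y ⬝ᵥ ((P A i * P A j) *ᵥ y)) := by
    intro i
    rw [Finset.sum_comm, Finset.mul_sum]
    refine Finset.sum_congr rfl fun j _ => ?_
    rw [Finset.sum_sub_distrib, sum_tr, ← Finset.mul_sum,
      sum_Nx_sq y _ _ (P_transpose i) (P_transpose j), Matrix.transpose_mul, P_transpose,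
      P_transpose, trPP' h, trPP' h]
    have e1 : P A j * P A i * (P A j * P A i) = (mu lam i j) • (P A j * P A i) := by
      rw [← Matrix.mul_assoc, PPP h, Matrix.smul_mul, mu_symm]
    rw [e1, Matrix.smul_mulVec, dotProduct_smul, smul_eq_mul, rho_symm, mu_symm lam j i]
    ring
  simp_rw [e, ← Finset.mul_sum]
  congr 1
  have e2 : ∀ i j : Fin v, mu lam i j * (y ⬝ᵥ ((P A i * P A j) *ᵥ y))
      = lam * (y ⬝ᵥ ((P A i * P A j) *ᵥ y))
        + (if i = j then (1 - lam) * (y ⬝ᵥ ((P A i * P A j) *ᵥ y)) else 0) := by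
    intro i j; unfold mu; split_ifs <;> ring
  simp_rw [e2, Finset.sum_add_distrib, ← Finset.mul_sum]
  simp only [Finset.sum_ite_eq, Finset.mem_univ, if_true]
  have e3 : ∑ i, ∑ j, y ⬝ᵥ ((P A i * P A j) *ᵥ y) = y ⬝ᵥ ((F A * F A) *ᵥ y) := by
    have : F A * F A = ∑ i, ∑ j, P A i * P A j := by
      rw [F, Finset.sum_mul_sum]
    rw [this, Matrix.sum_mulVec, dotProduct_sum]
    refine Finset.sum_congr rfl fun i _ => ?_
    rw [Matrix.sum_mulVec, dotProduct_sum]
  have e4 : ∑ i, (1 - lam) * (y ⬝ᵥ ((P A i * P A i) *ᵥ y)) = (1 - lam) * (y ⬝ᵥ (F A *ᵥ y)) := by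
    rw [← Finset.mul_sum]
    congr 1
    simp_rw [PP h]
    rw [F, Matrix.sum_mulVec, dotProduct_sum]
  rw [e3, e4]; ring

/-- the key inequality for eigenvectors of the frame operator -/
lemma key_eig (h : Data lam A) (hl0 : 0 < lam) (hl1 : lam < 1) (hv : 1 ≤ v)
    (y : Fin m → ℝ) (g : ℝ) (hy : y ⬝ᵥ y = 1) (hg : F A *ᵥ y = g • y) (tau : ℝ) :
    4 * g - lam / (1 + ((v : ℝ) - 1) * lam) * (4 * g ^ 2)
      ≤ 3 * (1 - lam) * (2 * (m + 1) - 2 * tau * (20 / 3 * g)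
        + tau ^ 2 * (20 / 3 * ((1 - lam) * g + lam * g ^ 2))) := by
  have hq : y ⬝ᵥ (F A *ᵥ y) = g := by rw [hg, dotProduct_smul, hy]; simp
  have hq2 : y ⬝ᵥ ((F A * F A) *ᵥ y) = g ^ 2 := by
    rw [← Matrix.mulVec_mulVec, hg, Matrix.mulVec_smul, hg, smul_smul, dotProduct_smul, hy]
    simp; ring
  have hsum : ∑ x : Fin m, (∑ i, trace (Nx y x * P A i) ^ 2
        - lam / (1 + ((v : ℝ) - 1) * lam) * trace (Nx y x * F A) ^ 2)
      ≤ ∑ x : Fin m, 3 * (1 - lam) * (trace (Nx y x * Nx y x)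
        - 2 * tau * trace (Nx y x * D A (Nx y x))
        + tau ^ 2 * trace (D A (Nx y x) * D A (Nx y x))) :=
    Finset.sum_le_sum fun x _ => bessel2 h hl0 hl1 hv _ (Nx_transpose y x) tau
  have e1 : ∑ x : Fin m, ∑ i, trace (Nx y x * P A i) ^ 2 = 4 * g := by
    rw [Finset.sum_comm]
    have : ∀ i, ∑ x, trace (Nx y x * P A i) ^ 2 = 4 * (y ⬝ᵥ (P A i *ᵥ y)) := by
      intro i
      simp_rw [sq]
      rw [sum_Nx_sq y _ _ (P_transpose i) (P_transpose i), PP h]
    simp_rw [this, ← Finset.mul_sum]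
    congr 1
    rw [← hq, F, Matrix.sum_mulVec, dotProduct_sum]
  have e2 : ∑ x : Fin m, trace (Nx y x * F A) ^ 2 = 4 * g ^ 2 := by
    simp_rw [sq]
    rw [sum_Nx_sq y _ _ F_transpose F_transpose, hq2]; ring
  have e3 : ∑ x : Fin m, trace (Nx y x * Nx y x) = 2 * (m + 1) := by
    have := sum_tr y (1 : Matrix (Fin m) (Fin m) ℝ) 1
    simp only [Matrix.one_mul, Matrix.mul_one, Matrix.transpose_one, Matrix.one_mulVec, hy,
      Matrix.trace_one, Fintype.card_fin] at this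
    rw [this]; ring
  simp_rw [Finset.sum_sub_distrib, ← Finset.mul_sum, Finset.sum_add_distrib,
    Finset.sum_sub_distrib, ← Finset.mul_sum] at hsum
  rw [e1, e2, e3, sum_D h, sum_DD h, hq, hq2] at hsum
  exact hsum

lemma trace_sq_le (H : Matrix (Fin m) (Fin m) ℝ) (hH : Hᵀ = H) :
    trace H ^ 2 ≤ m * trace (H * H) := by
  have h1 : trace (H * H) = ∑ x, ∑ y, H x y ^ 2 := by
    rw [sum_sq_eq_trace, hH]
  have h2 : trace H ^ 2 ≤ m * ∑ x, H x x ^ 2 := by
    have := sq_sum_le_card_mul_sum_sq (s := (Finset.univ : Finset (Fin m))) (f := fun x => H x x)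
    simpa [Matrix.trace] using this
  refine h2.trans ?_
  rw [h1]
  gcongr with x
  exact Finset.single_le_sum (f := fun y => H x y ^ 2) (fun y _ => sq_nonneg _) (Finset.mem_univ x)

/-- the bound for `lam ≤ 1/4`, in the form `2 L (Λ + 5) ≤ 3 (m+1) Λ` -/
lemma sharp_ineq (h : Data lam A) (c : ℝ) (hc : 0 < c) (hc1 : c ≤ 1 / 2) (hc2 : c ^ 2 = lam)
    (hv : 1 ≤ v) :
    2 * (1 + ((v : ℝ) - 1) * lam) * ((1 - lam + lam * (1 + ((v : ℝ) - 1) * lam)) + 5)
      ≤ 3 * (m + 1) * (1 - lam + lam * (1 + ((v : ℝ) - 1) * lam)) := by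
  have hl0 : 0 < lam := by rw [← hc2]; positivity
  have hl4 : lam ≤ 1 / 4 := by rw [← hc2]; nlinarith
  have hl1 : lam < 1 := by linarith
  have hv' : (1 : ℝ) ≤ v := by exact_mod_cast hv
  set L := 1 + ((v : ℝ) - 1) * lam with hL
  set K := 1 + ((v : ℝ) - 1) * c with hK
  have hLpos : 0 < L := by
    have : 0 ≤ ((v : ℝ) - 1) * lam := mul_nonneg (by linarith) hl0.le
    linarith
  have hpsd : ∀ y : Fin m → ℝ, 0 ≤ y ⬝ᵥ (F A *ᵥ y) := by
    intro y
    rw [F, Matrix.sum_mulVec, dotProduct_sum]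
    refine Finset.sum_nonneg fun i _ => ?_
    rw [P, ← Matrix.mulVec_mulVec, Matrix.dotProduct_mulVec]
    have : y ᵥ* A i = (A i)ᵀ *ᵥ y := by rw [Matrix.mulVec_transpose]
    rw [this]
    have := dotProduct_self_star_nonneg ((A i)ᵀ *ᵥ y)
    simpa using this
  obtain ⟨y, g, hy, hg, hLg⟩ := exists_eig (F A) F_transpose L hpsd
    (by rw [trF h]; linarith) (by rw [trF h, trFF h, ← hL]; linarith)
  have hg0 : 0 < g := by linarith
  -- g ≤ K
  have hgK : g ≤ K := by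
    have h1 := FKle h c hc hc2 (Matrix.of fun (x : Fin m) (_ : Unit) => y x)
    have e1 : (Matrix.of fun (x : Fin m) (_ : Unit) => y x) = Matrix.replicateCol Unit y := rfl
    have hFy : F A * (Matrix.of fun (x : Fin m) (_ : Unit) => y x)
        = g • (Matrix.of fun (x : Fin m) (_ : Unit) => y x) := by
      ext x u
      have := congrFun hg x
      simpa [Matrix.mul_apply, Matrix.mulVec, dotProduct] using this
    have hyy : trace ((Matrix.of fun (x : Fin m) (_ : Unit) => y x)ᵀ *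
        (Matrix.of fun (x : Fin m) (_ : Unit) => y x)) = 1 := by
      rw [← hy]
      simp [Matrix.trace, Matrix.mul_apply, dotProduct]
    rw [Matrix.mul_assoc, hFy, Matrix.transpose_smul, Matrix.smul_mul, Matrix.mul_smul,
      Matrix.trace_smul, Matrix.trace_smul, hyy, ← hK] at h1
    simp only [smul_eq_mul, mul_one] at h1
    exact le_of_mul_le_mul_right h1 hg0
  have hcK : c * K ≤ L := by rw [hK, hL, ← hc2]; nlinarith
  have hlg : lam / L * g ≤ c := by
    have h1 : lam / L * g ≤ lam / L * K := mul_le_mul_of_nonneg_left hgK (by positivity)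
    have h3 : lam / L * K = c * (c * K / L) := by rw [← hc2]; ring
    have h4 : c * K / L ≤ 1 := by rw [div_le_one hLpos]; exact hcK
    have h5 : c * (c * K / L) ≤ c * 1 := by gcongr
    linarith
  have hlg0 : 0 ≤ lam / L * g := by positivity
  set Λg := 1 - lam + lam * g with hΛg
  have hΛgpos : 0 < Λg := by
    have : 0 < lam * g := by positivity
    linarith
  set Λ := 1 - lam + lam * L with hΛ
  have hΛpos : 0 < Λ := by
    have : 0 < lam * L := by positivity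
    linarith
  have hkey := key_eig h hl0 hl1 hv y g hy hg (1 / Λg)
  rw [← hL] at hkey
  have hk2 : 3 * (1 - lam) * (2 * (m + 1) - 2 * (1 / Λg) * (20 / 3 * g)
        + (1 / Λg) ^ 2 * (20 / 3 * ((1 - lam) * g + lam * g ^ 2)))
      = (1 - lam) * (6 * (m + 1) - 20 * (g / Λg)) := by
    have : (1 - lam) * g + lam * g ^ 2 = g * Λg := by rw [hΛg]; ring
    rw [this]
    field_simp
    ring
  rw [hk2] at hkey
  have hmono : L / Λ ≤ g / Λg := by
    rw [div_le_div_iff₀ hΛpos hΛgpos, hΛ, hΛg]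
    nlinarith
  have hfirst : 4 * L * (1 - lam) ≤ 4 * g - lam / L * (4 * g ^ 2) := by
    have e1 : 4 * g - lam / L * (4 * g ^ 2) - 4 * L * (1 - lam)
        = 4 * (g - L) * (1 - lam - lam / L * g) + 4 * lam * (L - L / L * L)
          + 4 * lam * g * (L / L - 1) := by
      field_simp
      ring
    have e2 : L / L = 1 := div_self hLpos.ne'
    rw [e2] at e1
    have e3 : 0 ≤ 4 * (g - L) * (1 - lam - lam / L * g) := by
      apply mul_nonneg
      · linarith
      · linarith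
    nlinarith
  have h10 : 4 * L * (1 - lam) ≤ (1 - lam) * (6 * (m + 1) - 20 * (L / Λ)) := by
    have : (1 - lam) * (6 * (m + 1) - 20 * (g / Λg)) ≤ (1 - lam) * (6 * (m + 1) - 20 * (L / Λ)) := by
      apply mul_le_mul_of_nonneg_left _ (by linarith)
      linarith
    linarith
  have h11 : 4 * L ≤ 6 * (m + 1) - 20 * (L / Λ) := by
    have h12 : (1 - lam) * (4 * L) ≤ (1 - lam) * (6 * (m + 1) - 20 * (L / Λ)) := by linarith
    exact le_of_mul_le_mul_left h12 (by linarith)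
  have h13 : 4 * L * Λ ≤ (6 * (m + 1) - 20 * (L / Λ)) * Λ :=
    mul_le_mul_of_nonneg_right h11 hΛpos.le
  have h14 : (6 * ((m : ℝ) + 1) - 20 * (L / Λ)) * Λ = 6 * (m + 1) * Λ - 20 * L := by
    field_simp
  rw [h14] at h13
  linarith

theorem main_bound (h : Data lam A) (hl0 : 0 < lam) (hl1 : lam < 1) (hv : 1 ≤ v)
    (hm : 3 ≤ m) : 6 * v + m ≤ m * m := by
  obtain ⟨c, hcd⟩ : ∃ c, c = Real.sqrt lam := ⟨_, rfl⟩
  have hc : 0 < c := by rw [hcd]; exact Real.sqrt_pos.mpr hl0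
  have hc2 : c ^ 2 = lam := by rw [hcd]; exact Real.sq_sqrt hl0.le
  have hc1 : c < 1 := by
    by_contra hh
    push Not at hh
    nlinarith
  have hv' : (1 : ℝ) ≤ v := by exact_mod_cast hv
  have hm' : (3 : ℝ) ≤ m := by exact_mod_cast hm
  by_cases hc4 : 1 / 2 < c
  · exact anti_bound h c hc4 hc1 hc2 hv
  push Not at hc4
  have hl4 : lam ≤ 1 / 4 := by rw [← hc2]; nlinarith
  by_contra hcon
  push Not at hcon
  have hcon' : (m : ℝ) * m < 6 * v + m := by exact_mod_cast hcon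
  have hgt : (m : ℝ) * (m - 1) < 6 * v := by linarith
  by_cases hz : 3 ≤ lam * (m + 2)
  · exact final_alg m v lam hl0 hl4 hz hgt (sharp_ineq h c hc hc4 hc2 hv)
  · push Not at hz
    have h1 := trace_sq_le (F A) F_transpose
    rw [trF h, trFF h] at h1
    -- 3 v ≤ m L
    have h2 : (3 : ℝ) * v ≤ m * (1 + ((v : ℝ) - 1) * lam) := by
      have h3 : (3 * (v : ℝ)) * (3 * v) ≤ (3 * v) * (m * (1 + ((v : ℝ) - 1) * lam)) := by
        nlinarith [h1]
      exact le_of_mul_le_mul_left h3 (by linarith)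
    have h4 : (v : ℝ) * (3 - m * lam) ≤ m * (1 - lam) := by nlinarith [h2]
    have h5 : 0 < 3 - (m : ℝ) * lam := by nlinarith
    have h6 : (m : ℝ) * (m - 1) * (3 - m * lam) < 6 * v * (3 - m * lam) :=
      mul_lt_mul_of_pos_right hgt h5
    have h7 : 6 * ((m : ℝ) * (1 - lam)) ≤ m * (m - 1) * (3 - m * lam) := by
      have h8 : (m : ℝ) * (m - 1) * (3 - m * lam) - 6 * (m * (1 - lam))
          = m * ((m - 3) * (3 - lam * (m + 2))) := by ring
      have h9 : 0 ≤ (m : ℝ) * ((m - 3) * (3 - lam * (m + 2))) := by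
        apply mul_nonneg (by linarith)
        apply mul_nonneg (by linarith) (by linarith)
      linarith
    linarith

end Pool.Agent.H25.EI
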