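import Pool.Agent.H25.EI.Core

namespace Pool.Agent.H25.EI

open Matrix Finset

variable {v m : ℕ} {lam : ℝ} {A : Fin v → Matrix (Fin m) (Fin 3) ℝ}

lemma trace_tmul_nonneg {α β : Type*} [Fintype α] [Fintype β] (M : Matrix α β ℝ) :
    0 ≤ trace (Mᵀ * M) := by
  have := sum_sq_eq_trace Mᵀ
  rw [Matrix.transpose_transpose] at this
  rw [← this]; positivity

lemma pair_bound {β : Type*} [Fintype β] (kap : ℝ) (hk : 0 < kap)
    (G : Matrix (Fin 3) (Fin 3) ℝ) (y y' : Matrix (Fin 3) β ℝ)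
    (hG : Gᵀ * G = (kap ^ 2) • (1 : Matrix (Fin 3) (Fin 3) ℝ)) :
    2 * trace (yᵀ * G * y') ≤ kap * (trace (yᵀ * y) + trace (y'ᵀ * y')) := by
  have h0 := trace_tmul_nonneg (kap • y - G * y')
  have e1 : (kap • y - G * y')ᵀ * (kap • y - G * y')
      = (kap ^ 2) • (yᵀ * y) - kap • (yᵀ * G * y') - kap • (yᵀ * G * y')ᵀ
        + (kap ^ 2) • (y'ᵀ * y') := by
    rw [Matrix.transpose_sub, Matrix.transpose_smul, Matrix.sub_mul, Matrix.mul_sub,
      Matrix.mul_sub, Matrix.smul_mul, Matrix.mul_smul, Matrix.smul_mul, Matrix.mul_smul]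
    have e2 : (G * y')ᵀ * (G * y') = (kap ^ 2) • (y'ᵀ * y') := by
      rw [Matrix.transpose_mul, Matrix.mul_assoc, ← Matrix.mul_assoc Gᵀ, hG, Matrix.smul_mul,
        Matrix.one_mul, Matrix.mul_smul]
    have e3 : (G * y')ᵀ * y = (yᵀ * G * y')ᵀ := by
      rw [Matrix.transpose_mul (yᵀ * G), Matrix.transpose_mul yᵀ, Matrix.transpose_transpose,
        Matrix.transpose_mul, Matrix.mul_assoc]
    rw [e2, e3, smul_smul, ← Matrix.mul_assoc, sq]
    abel
  rw [e1] at h0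
  simp only [Matrix.trace_add, Matrix.trace_sub, Matrix.trace_smul, Matrix.trace_transpose,
    smul_eq_mul] at h0
  have h1 : 0 ≤ kap * (kap * (trace (yᵀ * y) + trace (y'ᵀ * y')) - 2 * trace (yᵀ * G * y')) := by
    nlinarith [h0]
  have := nonneg_of_mul_nonneg_right h1 hk
  linarith

/-- `‖F Y‖² ≤ K ⟨Y, F Y⟩` with `K = 1 + (v-1) √lam` -/
lemma FKle (h : Data lam A) (c : ℝ) (hc : 0 < c) (hc2 : c ^ 2 = lam)
    {β : Type*} [Fintype β] (Y : Matrix (Fin m) β ℝ) :
    trace ((F A * Y)ᵀ * (F A * Y)) ≤ (1 + ((v : ℝ) - 1) * c) * trace (Yᵀ * F A * Y) := by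
  set K := 1 + ((v : ℝ) - 1) * c with hK
  set Q := trace (Yᵀ * F A * Y) with hQ
  let y : Fin v → Matrix (Fin 3) β ℝ := fun i => (A i)ᵀ * Y
  let q : Fin v → ℝ := fun i => trace ((y i)ᵀ * y i)
  have hQq : Q = ∑ i, q i := by
    rw [hQ, F, Matrix.mul_sum, Matrix.sum_mul, Matrix.trace_sum]
    refine Finset.sum_congr rfl fun i _ => ?_
    simp only [q, y, P, Matrix.transpose_mul, Matrix.transpose_transpose, Matrix.mul_assoc]
  have hZ : trace ((F A * Y)ᵀ * (F A * Y)) = ∑ i, ∑ j, trace ((y i)ᵀ * ((A i)ᵀ * A j) * y j) := by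
    have e : (F A * Y)ᵀ * (F A * Y) = ∑ i, ∑ j, (y i)ᵀ * ((A i)ᵀ * A j) * y j := by
      have e1 : (F A * Y)ᵀ = ∑ i, (y i)ᵀ * (A i)ᵀ := by
        rw [Matrix.transpose_mul, F_transpose, F, Matrix.mul_sum]
        refine Finset.sum_congr rfl fun i _ => ?_
        simp only [y, P, Matrix.transpose_mul, Matrix.transpose_transpose, Matrix.mul_assoc]
      have e2 : F A * Y = ∑ j, A j * y j := by
        rw [F, Matrix.sum_mul]
        refine Finset.sum_congr rfl fun i _ => ?_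
        simp only [y, P, Matrix.mul_assoc]
      rw [e1, e2, Matrix.sum_mul]
      refine Finset.sum_congr rfl fun i _ => ?_
      rw [Matrix.mul_sum]
      refine Finset.sum_congr rfl fun j _ => ?_
      simp only [Matrix.mul_assoc]
    rw [e, Matrix.trace_sum]
    refine Finset.sum_congr rfl fun i _ => ?_
    rw [Matrix.trace_sum]
  rw [hZ]
  have hb : ∀ i j : Fin v, trace ((y i)ᵀ * ((A i)ᵀ * A j) * y j)
      ≤ mu c i j * (q i + q j) / 2 := by
    intro i j
    have hm : 0 < mu c i j := by unfold mu; split_ifs <;> [norm_num; exact hc]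
    have hm2 : mu c i j ^ 2 = mu lam j i := by
      unfold mu
      by_cases hij : i = j
      · simp [hij]
      · have : ¬ j = i := fun hh => hij hh.symm
        simp [hij, this, hc2]
    have hG : ((A i)ᵀ * A j)ᵀ * ((A i)ᵀ * A j)
        = (mu c i j ^ 2) • (1 : Matrix (Fin 3) (Fin 3) ℝ) := by
      rw [Matrix.transpose_mul, Matrix.transpose_transpose, hm2, gram_sq h j i]
    have := pair_bound (mu c i j) hm ((A i)ᵀ * A j) (y i) (y j) hG
    simp only [q]
    linarith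
  refine (Finset.sum_le_sum fun i _ => Finset.sum_le_sum fun j _ => hb i j).trans ?_
  have e1 : ∀ i j : Fin v, mu c i j * (q i + q j) / 2 = (mu c i j * q i) / 2 + (mu c j i * q j) / 2 := by
    intro i j
    have : mu c i j = mu c j i := by unfold mu; simp [eq_comm]
    rw [this]; ring
  simp_rw [e1, Finset.sum_add_distrib]
  rw [Finset.sum_comm (f := fun i j => mu c j i * q j / 2)]
  simp_rw [← Finset.sum_div, ← Finset.sum_mul, sum_mu]
  rw [← Finset.mul_sum, ← hQq]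
  rw [← hK]
  linarith

/-- Bessel inequality summed over `e_x Y_aᵀ + Y_a e_xᵀ` -/
lemma matG (h : Data lam A) (hl0 : 0 < lam) (hl1 : lam < 1) (hv : 1 ≤ v)
    {β : Type*} [Fintype β] (Y : Matrix (Fin m) β ℝ) :
    2 * trace (Yᵀ * F A * Y)
      - 2 * (lam / (1 + ((v : ℝ) - 1) * lam)) * trace ((F A * Y)ᵀ * (F A * Y))
      ≤ 3 * (1 - lam) * (m + 1) * trace (Yᵀ * Y) := by
  let N : Fin m → β → Matrix (Fin m) (Fin m) ℝ := fun x a =>
    vecMulVec (Pi.single x 1) (fun z => Y z a) + vecMulVec (fun z => Y z a) (Pi.single x 1)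
  have hN : ∀ x a, (N x a)ᵀ = N x a := by
    intro x a; ext z w; simp [N, vecMulVec_apply]; ring
  have htr : ∀ x a (Q : Matrix (Fin m) (Fin m) ℝ), Qᵀ = Q → trace (N x a * Q) = 2 * (Q * Y) x a := by
    intro x a Q hQ
    have hs : ∀ i j, Q i j = Q j i := by
      intro i j
      have := congrFun (congrFun hQ j) i
      simpa [Matrix.transpose_apply] using this
    simp only [N]
    rw [Matrix.add_mul, Matrix.trace_add, vecMulVec_mul, vecMulVec_mul, trace_vecMulVec,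
      trace_vecMulVec, single_one_dotProduct, Matrix.mul_apply]
    simp only [dotProduct, Matrix.vecMul, Matrix.mul_apply]
    have e1 : ∑ z, Y z a * Q z x = ∑ z, Q x z * Y z a := by
      refine Finset.sum_congr rfl fun z _ => ?_
      rw [hs z x]; ring
    have e2 : ∀ z, ∑ w, (Pi.single x (1:ℝ) : Fin m → ℝ) w * Q w z = Q x z := by
      intro z; simp [Pi.single_apply]
    rw [e1]
    simp_rw [e2]
    have e3 : ∑ z, Y z a * Q x z = ∑ z, Q x z * Y z a :=
      Finset.sum_congr rfl fun z _ => mul_comm _ _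
    rw [e3]; ring
  have hnn : ∀ x a, trace (N x a * N x a) = 2 * (∑ z, Y z a ^ 2 + Y x a ^ 2) := by
    intro x a
    rw [htr x a _ (hN x a)]
    simp only [N, Matrix.mul_apply, Matrix.add_apply, vecMulVec_apply]
    have e : ∀ z, ((Pi.single x (1:ℝ) : Fin m → ℝ) x * Y z a + Y x a * (Pi.single x (1:ℝ) : Fin m → ℝ) z) * Y z a
        = Y z a ^ 2 + (if z = x then Y x a * Y z a else 0) := by
      intro z
      by_cases hz : z = x
      · subst hz; simp; ring
      · simp [hz, Pi.single_apply]; ring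
    simp_rw [e, Finset.sum_add_distrib]
    simp
    ring
  have hsum : ∑ x : Fin m, ∑ a : β,
      (∑ i, trace (N x a * P A i) ^ 2
        - lam / (1 + ((v : ℝ) - 1) * lam) * trace (N x a * F A) ^ 2)
      ≤ ∑ x : Fin m, ∑ a : β, 3 * (1 - lam) * trace (N x a * N x a) :=
    Finset.sum_le_sum fun x _ => Finset.sum_le_sum fun a _ => bessel h hl0 hl1 hv _ (hN x a)
  have hfro : ∀ (Q : Matrix (Fin m) (Fin m) ℝ), ∑ x, ∑ a, (Q * Y) x a ^ 2
      = trace ((Q * Y)ᵀ * (Q * Y)) := by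
    intro Q
    rw [sum_sq_eq_trace, Matrix.trace_mul_comm]
  have e1 : ∑ x : Fin m, ∑ a : β, ∑ i, trace (N x a * P A i) ^ 2 = 4 * trace (Yᵀ * F A * Y) := by
    have : ∀ x a, ∑ i, trace (N x a * P A i) ^ 2 = ∑ i, 4 * (P A i * Y) x a ^ 2 := by
      intro x a
      refine Finset.sum_congr rfl fun i _ => ?_
      rw [htr x a _ (P_transpose i)]; ring
    simp_rw [this]
    have h2 : ∑ x : Fin m, ∑ a : β, ∑ i : Fin v, 4 * (P A i * Y) x a ^ 2
        = ∑ i : Fin v, ∑ x : Fin m, ∑ a : β, 4 * (P A i * Y) x a ^ 2 := by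
      calc ∑ x : Fin m, ∑ a : β, ∑ i : Fin v, 4 * (P A i * Y) x a ^ 2
          = ∑ x : Fin m, ∑ i : Fin v, ∑ a : β, 4 * (P A i * Y) x a ^ 2 :=
            Finset.sum_congr rfl fun _ _ => Finset.sum_comm
        _ = _ := Finset.sum_comm
    rw [h2]
    simp_rw [← Finset.mul_sum, hfro]
    have h3 : ∀ i, trace ((P A i * Y)ᵀ * (P A i * Y)) = trace (Yᵀ * P A i * Y) := by
      intro i
      have hPP : P A i * P A i = P A i := by
        simp only [P]
        rw [Matrix.mul_assoc, ← Matrix.mul_assoc (A i)ᵀ, h.diag, Matrix.one_mul]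
      rw [Matrix.transpose_mul, P_transpose, Matrix.mul_assoc, ← Matrix.mul_assoc (P A i), hPP,
        ← Matrix.mul_assoc]
    simp_rw [h3]
    rw [F, Matrix.mul_sum, Matrix.sum_mul, Matrix.trace_sum]
  have e2 : ∑ x : Fin m, ∑ a : β, trace (N x a * F A) ^ 2
      = 4 * trace ((F A * Y)ᵀ * (F A * Y)) := by
    simp_rw [htr _ _ _ (F_transpose (A := A)), mul_pow, ← Finset.mul_sum, hfro]
    norm_num
  have e3 : ∑ x : Fin m, ∑ a : β, trace (N x a * N x a)
      = 2 * (m + 1) * trace (Yᵀ * Y) := by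
    simp_rw [hnn, ← Finset.mul_sum, Finset.sum_add_distrib]
    have e4 : ∑ x : Fin m, ∑ a : β, Y x a ^ 2 = trace (Yᵀ * Y) := by
      rw [sum_sq_eq_trace, Matrix.trace_mul_comm]
    have e5 : ∑ a : β, ∑ z : Fin m, Y z a ^ 2 = trace (Yᵀ * Y) := by
      rw [Finset.sum_comm, e4]
    rw [e4, Finset.sum_const, e5, Finset.card_univ, Fintype.card_fin, nsmul_eq_mul]
    ring
  simp_rw [Finset.sum_sub_distrib, ← Finset.mul_sum] at hsum
  rw [e1, e2, e3] at hsum
  linarith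

/-- `F ≤ Γ` with `Γ = (3/2)(1+√lam)(m+1)` -/
lemma FG (h : Data lam A) (c : ℝ) (hc : 0 < c) (hc1 : c < 1) (hc2 : c ^ 2 = lam) (hv : 1 ≤ v)
    {β : Type*} [Fintype β] (Y : Matrix (Fin m) β ℝ) :
    trace (Yᵀ * F A * Y) ≤ (3 / 2 * (1 + c) * (m + 1)) * trace (Yᵀ * Y) := by
  have hl0 : 0 < lam := by rw [← hc2]; positivity
  have hl1 : lam < 1 := by rw [← hc2]; nlinarith
  have hv' : (1 : ℝ) ≤ v := by exact_mod_cast hv
  have hG := matG h hl0 hl1 hv Y
  have hK := FKle h c hc hc2 Y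
  set L := 1 + ((v : ℝ) - 1) * lam with hL
  set K := 1 + ((v : ℝ) - 1) * c with hKd
  set Q := trace (Yᵀ * F A * Y) with hQ
  set Z := trace ((F A * Y)ᵀ * (F A * Y)) with hZ
  have hLpos : 0 < L := by
    have : 0 ≤ ((v : ℝ) - 1) * lam := mul_nonneg (by linarith) hl0.le
    linarith
  have hQ0 : 0 ≤ Q := by
    have : Q = ∑ i, trace (((A i)ᵀ * Y)ᵀ * ((A i)ᵀ * Y)) := by
      rw [hQ, F, Matrix.mul_sum, Matrix.sum_mul, Matrix.trace_sum]
      refine Finset.sum_congr rfl fun i _ => ?_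
      simp only [P, Matrix.transpose_mul, Matrix.transpose_transpose, Matrix.mul_assoc]
    rw [this]
    exact Finset.sum_nonneg fun i _ => trace_tmul_nonneg _
  have hcK : c * K ≤ L := by rw [hKd, hL, ← hc2]; nlinarith
  have h1 : lam / L * Z ≤ c * Q := by
    have h2 : lam / L * Z ≤ lam / L * (K * Q) := mul_le_mul_of_nonneg_left hK (by positivity)
    have h3 : lam / L * (K * Q) = c * (c * K / L) * Q := by rw [← hc2]; ring
    have h4 : c * K / L ≤ 1 := by rw [div_le_one hLpos]; exact hcK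
    have h5 : c * (c * K / L) * Q ≤ c * 1 * Q := by gcongr
    linarith
  have h6 : 2 * (1 - c) * Q ≤ 3 * (1 - lam) * (m + 1) * trace (Yᵀ * Y) := by
    nlinarith [hG, h1]
  have h7 : 0 ≤ (1 - c) * (3 * (1 + c) * (m + 1) * trace (Yᵀ * Y) - 2 * Q) := by
    have : (1 - c) * (3 * (1 + c) * (m + 1) * trace (Yᵀ * Y) - 2 * Q)
        = 3 * (1 - c ^ 2) * (m + 1) * trace (Yᵀ * Y) - 2 * (1 - c) * Q := by ring
    rw [this, hc2]; linarith
  have := nonneg_of_mul_nonneg_right h7 (by linarith)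
  linarith

lemma trace_F_sum (N : Matrix (Fin m) (Fin m) ℝ) :
    ∑ i, trace ((A i)ᵀ * N * A i) = trace (N * F A) := by
  rw [F, Finset.mul_sum, Matrix.trace_sum]
  refine Finset.sum_congr rfl fun i _ => ?_
  rw [trP]

lemma tr4_le (h : Data lam A) (c : ℝ) (hc : 0 < c) (hc1 : c < 1) (hc2 : c ^ 2 = lam)
    (hv : 1 ≤ v) :
    trace (F A * F A * F A * F A) ≤ (3 / 2 * (1 + c) * (m + 1)) * trace (F A * F A * F A) := by
  rw [← trace_F_sum, ← trace_F_sum, Finset.mul_sum]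
  refine Finset.sum_le_sum fun i _ => ?_
  have := FG h c hc hc1 hc2 hv (F A * A i)
  rw [Matrix.transpose_mul, F_transpose] at this
  simpa only [Matrix.mul_assoc] using this

lemma tr3_le (h : Data lam A) (c : ℝ) (hc : 0 < c) (hc1 : c < 1) (hc2 : c ^ 2 = lam)
    (hv : 1 ≤ v) :
    trace (F A * F A * F A) ≤ (3 / 2 * (1 + c) * (m + 1)) * trace (F A * F A) := by
  have := FG h c hc hc1 hc2 hv (F A)
  rwa [F_transpose] at this

theorem quart_bound (h : Data lam A) (c : ℝ) (hc : 0 < c) (hc1 : c < 1) (hc2 : c ^ 2 = lam)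
    (hv : 1 ≤ v) :
    2 * (1 + ((v : ℝ) - 1) * lam) ^ 2
      ≤ 3 * (1 - lam) * (3 * v + (1 + ((v : ℝ) - 1) * lam))
        + 9 / 2 * lam * (1 + c) ^ 2 * (m + 1) ^ 2 := by
  have hl0 : 0 < lam := by rw [← hc2]; positivity
  have hl1 : lam < 1 := by rw [← hc2]; nlinarith
  have hv' : (1 : ℝ) ≤ v := by exact_mod_cast hv
  set L := 1 + ((v : ℝ) - 1) * lam with hL
  have hLpos : 0 < L := by
    have : 0 ≤ ((v : ℝ) - 1) * lam := mul_nonneg (by linarith) hl0.le
    linarith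
  set T4 := trace (F A * F A * F A * F A) with hT4
  set T3 := trace (F A * F A * F A) with hT3
  have h4 := trF4_lower h hl0 hl1 hv
  rw [← hL, ← hT4] at h4
  have h43 := tr4_le h c hc hc1 hc2 hv
  have h32 := tr3_le h c hc hc1 hc2 hv
  rw [← hT4, ← hT3] at h43
  rw [trFF h, ← hL, ← hT3] at h32
  set Γ := 3 / 2 * (1 + c) * ((m : ℝ) + 1) with hΓ
  have hΓ0 : 0 ≤ Γ := by positivity
  have h5 : T4 ≤ Γ ^ 2 * (3 * v * L) := by
    calc T4 ≤ Γ * T3 := h43
      _ ≤ Γ * (Γ * (3 * v * L)) := mul_le_mul_of_nonneg_left h32 hΓ0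
      _ = _ := by ring
  have h6 : lam / L * T4 ≤ 3 * v * lam * Γ ^ 2 := by
    calc lam / L * T4 ≤ lam / L * (Γ ^ 2 * (3 * v * L)) :=
          mul_le_mul_of_nonneg_left h5 (by positivity)
      _ = _ := by field_simp
  have hvpos : (0 : ℝ) < v := by linarith
  have h7 : 0 ≤ (3 * v) * (3 * (1 - lam) * (3 * v + L) + 2 * lam * Γ ^ 2 - 2 * L ^ 2) := by
    nlinarith [h4, h6]
  have h8 := nonneg_of_mul_nonneg_right h7 (by positivity)
  have h9 : 2 * lam * Γ ^ 2 = 9 / 2 * lam * (1 + c) ^ 2 * (m + 1) ^ 2 := by rw [hΓ]; ring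
  linarith

end Pool.Agent.H25.EI
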