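import Pool.Agent.H25.EI.Core

namespace Pool.Agent.H25.EI

open Matrix Finset

/-- `U` is isoclinic to `W` with parameter `lam`: `‖P_W u‖² = lam ‖u‖²` for all `u ∈ U`. -/
def Isoclinic {m : ℕ} (U W : Submodule ℝ (EuclideanSpace ℝ (Fin m))) (lam : ℝ) : Prop :=
  ∀ u ∈ U, ‖W.starProjection u‖ ^ 2 = lam * ‖u‖ ^ 2

/-- An equi-isoclinic family of `v ≥ 2` subspaces of dimension `n` of `ℝ^m`, with parameter
`0 < lam < 1`. -/
structure EquiIsoclinic (n : ℕ) {m v : ℕ} (lam : ℝ)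
    (U : Fin v → Submodule ℝ (EuclideanSpace ℝ (Fin m))) : Prop where
  two_le : 2 ≤ v
  lam_pos : 0 < lam
  lam_lt : lam < 1
  dim : ∀ i, Module.finrank ℝ (U i) = n
  iso : ∀ i j, i ≠ j → Isoclinic (U i) (U j) lam

variable {v m : ℕ} {lam : ℝ}

lemma proj_norm_sq (W : Submodule ℝ (EuclideanSpace ℝ (Fin m)))
    (b : OrthonormalBasis (Fin 3) ℝ W) (u : EuclideanSpace ℝ (Fin m)) :
    ‖W.starProjection u‖ ^ 2 = ∑ a, (inner ℝ (b a : EuclideanSpace ℝ (Fin m)) u) ^ 2 := by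
  have h1 := b.sum_sq_inner_right (W.orthogonalProjectionOnto u)
  rw [Submodule.starProjection_apply]
  rw [Submodule.coe_norm] at h1
  rw [← h1]
  refine Finset.sum_congr rfl fun a _ => ?_
  rw [Submodule.inner_orthogonalProjectionOnto_eq_of_mem_left]

theorem exists_data {U : Fin v → Submodule ℝ (EuclideanSpace ℝ (Fin m))}
    (h : EquiIsoclinic 3 lam U) : ∃ A : Fin v → Matrix (Fin m) (Fin 3) ℝ, Data lam A := by
  let b : ∀ i, OrthonormalBasis (Fin 3) ℝ (U i) := fun i =>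
    (stdOrthonormalBasis ℝ (U i)).reindex (finCongr (h.dim i))
  let A : Fin v → Matrix (Fin m) (Fin 3) ℝ := fun i => Matrix.of fun x a =>
    ((b i a : U i) : EuclideanSpace ℝ (Fin m)) x
  have hin : ∀ i j a c, ((A i)ᵀ * A j) a c
      = inner ℝ (b i a : EuclideanSpace ℝ (Fin m)) (b j c : EuclideanSpace ℝ (Fin m)) := by
    intro i j a c
    simp [A, Matrix.mul_apply, PiLp.inner_apply]
    refine Finset.sum_congr rfl fun x _ => ?_
    ring
  refine ⟨A, ⟨?_, ?_⟩⟩
  · intro i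
    ext a c
    rw [hin, ← Submodule.coe_inner, (b i).inner_eq_ite, Matrix.one_apply]
  · intro i j hij
    have hB : ∀ u ∈ U i, ∑ e, (inner ℝ (b j e : EuclideanSpace ℝ (Fin m)) u) ^ 2
        = lam * ‖u‖ ^ 2 := by
      intro u hu
      rw [← proj_norm_sq, h.iso i j hij u hu]
    have hpol : ∀ u ∈ U i, ∀ w ∈ U i, ∑ e, inner ℝ (b j e : EuclideanSpace ℝ (Fin m)) u *
        inner ℝ (b j e : EuclideanSpace ℝ (Fin m)) w = lam * inner ℝ u w := by
      intro u hu w hw
      have h1 := hB (u + w) ((U i).add_mem hu hw)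
      have h2 := hB u hu
      have h3 := hB w hw
      have h4 : ‖u + w‖ ^ 2 = ‖u‖ ^ 2 + 2 * inner ℝ u w + ‖w‖ ^ 2 := norm_add_sq_real u w
      rw [h4] at h1
      have h5 : ∑ e, (inner ℝ (b j e : EuclideanSpace ℝ (Fin m)) (u + w)) ^ 2
          = ∑ e, (inner ℝ (b j e : EuclideanSpace ℝ (Fin m)) u) ^ 2
            + 2 * ∑ e, inner ℝ (b j e : EuclideanSpace ℝ (Fin m)) u *
              inner ℝ (b j e : EuclideanSpace ℝ (Fin m)) w
            + ∑ e, (inner ℝ (b j e : EuclideanSpace ℝ (Fin m)) w) ^ 2 := by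
        rw [Finset.mul_sum, ← Finset.sum_add_distrib, ← Finset.sum_add_distrib]
        refine Finset.sum_congr rfl fun e _ => ?_
        rw [inner_add_right]; ring
      rw [h5, h2, h3] at h1
      linarith
    ext a c
    rw [Matrix.mul_apply]
    have : ∀ e, ((A i)ᵀ * A j) a e * ((A j)ᵀ * A i) e c
        = inner ℝ (b j e : EuclideanSpace ℝ (Fin m)) (b i a : EuclideanSpace ℝ (Fin m)) *
          inner ℝ (b j e : EuclideanSpace ℝ (Fin m)) (b i c : EuclideanSpace ℝ (Fin m)) := by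
      intro e
      rw [hin, hin, real_inner_comm]
    simp_rw [this]
    rw [hpol _ (b i a).2 _ (b i c).2, ← Submodule.coe_inner, (b i).inner_eq_ite,
      Matrix.smul_apply, Matrix.one_apply, smul_eq_mul]

end Pool.Agent.H25.EI
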